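import Pool.Agent.QUB.Bix
import Pool.Agent.QUL.LTh

/-!
# QUO/Fan: the fan of a plane over a flat of corank two (Oxley's theorem on `U_{2,5}` and `U_{3,5}`, first part)

`Fan r p W P`: `W` has corank two in the box `p`, the rest of the ground set consists of the five classes `P k` of `p / W`.
`fan_pl`: if `p` has no minor `U_{3,5}`, then for every set `A` between `p.1` and `W` of rank `r W - 1` four of the classes are on a line of `p / A`.
-/

set_option autoImplicit false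

open QUB

namespace Pool.Agent.QU

variable {E : Type} [DecidableEq E] {r : Finset E → ℤ} {p : Itv E}

/-- the union of the classes except the class `j` -/
def Qf (P : Fin 5 → Finset E) (j : Fin 5) : Finset E := (Finset.univ.erase j).biUnion P

theorem mem_Qf {P : Fin 5 → Finset E} {j : Fin 5} {x : E} : x ∈ Qf P j ↔ ∃ k, k ≠ j ∧ x ∈ P k := by
  simp [Qf]

/-- the classes of a box modulo a set of corank two -/
structure Fan (r : Finset E → ℤ) (p : Itv E) (W : Finset E) (P : Fin 5 → Finset E) : Prop where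
  h1 : p.1 ⊆ W
  hU : W ∪ Finset.univ.biUnion P = p.2
  dW : ∀ k, Disjoint (P k) W
  dP : ∀ k l, k ≠ l → Disjoint (P k) (P l)
  ne : ∀ k, (P k).Nonempty
  rW : r p.2 = r W + 2
  one : ∀ k, r (W ∪ P k) = r W + 1
  two : ∀ k l, k ≠ l → ∀ s ∈ P k, ∀ s' ∈ P l, r (insert s (insert s' W)) = r W + 2

theorem fn_mg (hr : Rk r) {A B : Finset E} (X : Finset E) (h : A ⊆ B) : r (B ∪ X) + r A ≤ r (A ∪ X) + r B := by
  have h1 := hr.sub (A ∪ X) B
  have e1 : (A ∪ X) ∪ B = B ∪ X := by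
    ext w
    have := @h w
    simp only [Finset.mem_union]
    tauto
  have h2 := hr.mono A ((A ∪ X) ∩ B) (Finset.subset_inter Finset.subset_union_left h)
  rw [e1] at h1
  linarith

theorem fn_cl (hr : Rk r) {C : Finset E} : ∀ S : Finset E, (∀ z ∈ S, r (insert z C) ≤ r C) → r (C ∪ S) ≤ r C := by
  intro S
  induction S using Finset.induction_on with
  | empty => intro _; rw [Finset.union_empty]
  | insert a S ha ih =>
    intro h
    have h1 := ih fun z hz => h z (Finset.mem_insert_of_mem hz)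
    have h2 := h a (Finset.mem_insert_self _ _)
    have h3 := marg hr (Finset.subset_union_left : C ⊆ C ∪ S) a
    have e : C ∪ insert a S = insert a (C ∪ S) := Finset.union_insert _ _ _
    rw [e]
    linarith


section

variable {W : Finset E} {P : Fin 5 → Finset E}

theorem Fan.hW2 (hF : Fan r p W P) : W ⊆ p.2 := hF.hU ▸ Finset.subset_union_left

theorem Fan.hP2 (hF : Fan r p W P) (k : Fin 5) : P k ⊆ p.2 := by
  intro x hx
  rw [← hF.hU]
  exact Finset.mem_union_right _ (Finset.mem_biUnion.2 ⟨k, Finset.mem_univ k, hx⟩)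

/-- two elements in different classes are independent over every subset of `W` -/
theorem Fan.pr (hr : Rk r) (hF : Fan r p W P) {A : Finset E} (hA : A ⊆ W) {k l : Fin 5} (hkl : k ≠ l) {s s' : E} (hs : s ∈ P k)
    (hs' : s' ∈ P l) : r A + 2 ≤ r (A ∪ {s, s'}) := by
  have h1 := fn_mg hr {s, s'} hA
  have h2 := hF.two k l hkl s hs s' hs'
  have e : W ∪ {s, s'} = insert s (insert s' W) := by
    ext w
    simp only [Finset.mem_union, Finset.mem_insert, Finset.mem_singleton]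
    tauto
  rw [e, h2] at h1
  linarith

theorem Fan.lowQ (hr : Rk r) (hF : Fan r p W P) {A : Finset E} (hA : A ⊆ W) (j : Fin 5) : r A + 2 ≤ r (A ∪ Qf P j) := by
  obtain ⟨k, l, hkj, hlj, hkl⟩ : ∃ k l : Fin 5, k ≠ j ∧ l ≠ j ∧ k ≠ l := by
    revert j
    decide
  obtain ⟨s, hs⟩ := hF.ne k
  obtain ⟨s', hs'⟩ := hF.ne l
  refine (hF.pr hr hA hkl hs hs').trans (hr.mono _ _ (Finset.union_subset_union_right ?_))
  intro x hx
  rcases Finset.mem_insert.1 hx with rfl | hx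
  · exact mem_Qf.2 ⟨k, hkj, hs⟩
  · rw [Finset.mem_singleton.1 hx]
    exact mem_Qf.2 ⟨l, hlj, hs'⟩

end

private theorem fn_srt : ∀ i j k : Fin 5, i < j → j < k → (i = 0 ∧ j = 1 ∧ k = 2) ∨ (i = 0 ∧ j = 1 ∧ k = 3) ∨ (i = 0 ∧ j = 1 ∧ k = 4) ∨
    (i = 0 ∧ j = 2 ∧ k = 3) ∨ (i = 0 ∧ j = 2 ∧ k = 4) ∨ (i = 0 ∧ j = 3 ∧ k = 4) ∨ (i = 1 ∧ j = 2 ∧ k = 3) ∨
    (i = 1 ∧ j = 2 ∧ k = 4) ∨ (i = 1 ∧ j = 3 ∧ k = 4) ∨ (i = 2 ∧ j = 3 ∧ k = 4) := by decide

private theorem fn_ten {T : Fin 5 → Fin 5 → Fin 5 → Prop} (h1 : ∀ i j k, T i j k → T j i k)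
    (h2 : ∀ i j k, T i j k → T i k j) (a1 : T 0 1 2) (a2 : T 0 1 3) (a3 : T 0 1 4) (a4 : T 0 2 3) (a5 : T 0 2 4) (a6 : T 0 3 4)
    (a7 : T 1 2 3) (a8 : T 1 2 4) (a9 : T 1 3 4) (a10 : T 2 3 4) : ∀ i j k, i ≠ j → i ≠ k → j ≠ k → T i j k := by
  have h : ∀ i j k, i < j → j < k → T i j k := by
    intro i j k hij hjk
    rcases fn_srt i j k hij hjk with ⟨rfl, rfl, rfl⟩ | ⟨rfl, rfl, rfl⟩ | ⟨rfl, rfl, rfl⟩ | ⟨rfl, rfl, rfl⟩ |
      ⟨rfl, rfl, rfl⟩ | ⟨rfl, rfl, rfl⟩ | ⟨rfl, rfl, rfl⟩ | ⟨rfl, rfl, rfl⟩ | ⟨rfl, rfl, rfl⟩ | ⟨rfl, rfl, rfl⟩ <;> assumption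
  intro i j k hij hik hjk
  rcases lt_or_gt_of_ne hij with b1 | b1 <;> rcases lt_or_gt_of_ne hik with b2 | b2 <;>
    rcases lt_or_gt_of_ne hjk with b3 | b3
  · exact h i j k b1 b3
  · exact h2 _ _ _ (h i k j b2 b3)
  · exact absurd (lt_trans b1 b3) (not_lt.2 b2.le)
  · exact h2 _ _ _ (h1 _ _ _ (h k i j b2 b1))
  · exact h1 _ _ _ (h j i k b1 b2)
  · exact absurd (lt_trans b3 b1) (not_lt.2 b2.le)
  · exact h1 _ _ _ (h2 _ _ _ (h j k i b3 b2))
  · exact h1 _ _ _ (h2 _ _ _ (h1 _ _ _ (h k j i b3 b1)))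

/-- five elements, every three of them independent over `A` -/
theorem arcF (hr : Rk r) {A : Finset E} (hA1 : p.1 ⊆ A) (hA2 : A ⊆ p.2) (h3 : r p.2 ≤ r A + 3) (x : Fin 5 → E) (hx2 : ∀ i, x i ∈ p.2)
    (hx : ∀ i j k, i ≠ j → i ≠ k → j ≠ k → r A + 3 ≤ r (A ∪ {x i, x j, x k})) :
    ∃ q : Itv E, Sub q p ∧ Rich r q ∧ r q.2 = r q.1 + 3 := by
  have up2 : ∀ a b : E, r (A ∪ {a, b}) ≤ r A + 2 := by
    intro a b
    have h1 := hr.unit A a
    have h2 := hr.unit (insert a A) b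
    have e : A ∪ {a, b} = insert b (insert a A) := by
      ext w
      simp only [Finset.mem_union, Finset.mem_insert, Finset.mem_singleton]
      tauto
    rw [e]
    linarith
  have oth : ∀ i j : Fin 5, ∃ k, k ≠ i ∧ k ≠ j := by decide
  have oth2 : ∀ i : Fin 5, ∃ j k, j ≠ i ∧ k ≠ i ∧ j ≠ k := by decide
  have inj : Function.Injective x := by
    intro i j hij
    by_contra hne
    obtain ⟨k, hki, hkj⟩ := oth i j
    have h1 := hx i j k hne hki.symm hkj.symm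
    rw [hij] at h1
    have e : A ∪ {x j, x j, x k} = A ∪ {x j, x k} := by
      rw [Finset.insert_eq_of_mem (Finset.mem_insert_self _ _)]
    rw [e] at h1
    have := up2 (x j) (x k)
    omega
  have notA : ∀ i, x i ∉ A := by
    intro i hi
    obtain ⟨j, k, hji, hki, hjk⟩ := oth2 i
    have h1 := hx i j k hji.symm hki.symm hjk
    have e : A ∪ {x i, x j, x k} = A ∪ {x j, x k} := by
      ext w
      simp only [Finset.mem_union, Finset.mem_insert, Finset.mem_singleton]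
      constructor
      · rintro (h | rfl | h | h)
        · exact Or.inl h
        · exact Or.inl hi
        · exact Or.inr (Or.inl h)
        · exact Or.inr (Or.inr h)
      · rintro (h | h | h)
        · exact Or.inl h
        · exact Or.inr (Or.inr (Or.inl h))
        · exact Or.inr (Or.inr (Or.inr h))
    rw [e] at h1
    have := up2 (x j) (x k)
    omega
  set N := Finset.univ.image x with hN
  have hg : gs ((A, A ∪ N) : Itv E) = N := by
    ext w
    simp only [gs, Finset.mem_sdiff, Finset.mem_union]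
    constructor
    · rintro ⟨h | h, h'⟩
      · exact absurd h h'
      · exact h
    · intro h
      obtain ⟨i, -, rfl⟩ := Finset.mem_image.1 h
      exact ⟨Or.inr h, notA i⟩
  have hNp : N ⊆ p.2 := by
    intro w hw
    obtain ⟨i, -, rfl⟩ := Finset.mem_image.1 hw
    exact hx2 i
  have hle : r (A ∪ N) ≤ r A + 3 := (hr.mono _ _ (Finset.union_subset hA2 hNp)).trans h3
  have tri : ∀ i ∈ N, ∀ j ∈ N, ∀ k ∈ N, i ≠ j → i ≠ k → j ≠ k → r (A ∪ {i, j, k}) = r A + 3 := by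
    intro i hi j hj k hk hij hik hjk
    obtain ⟨a, -, rfl⟩ := Finset.mem_image.1 hi
    obtain ⟨b, -, rfl⟩ := Finset.mem_image.1 hj
    obtain ⟨c, -, rfl⟩ := Finset.mem_image.1 hk
    have h1 := hx a b c (fun h => hij (by rw [h])) (fun h => hik (by rw [h])) (fun h => hjk (by rw [h]))
    have h2 := hr.mono (A ∪ {x a, x b, x c}) (A ∪ N) (Finset.union_subset_union_right (by
      intro w hw
      simp only [Finset.mem_insert, Finset.mem_singleton] at hw
      rcases hw with rfl | rfl | rfl <;> assumption))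
    omega
  have hrk : r (A ∪ N) = r A + 3 := by
    have h1 := hx 0 1 2 (by decide) (by decide) (by decide)
    have h2 := hr.mono (A ∪ {x 0, x 1, x 2}) (A ∪ N) (Finset.union_subset_union_right (by
      intro w hw
      simp only [Finset.mem_insert, Finset.mem_singleton] at hw
      rcases hw with rfl | rfl | rfl <;> exact Finset.mem_image_of_mem x (Finset.mem_univ _)))
    omega
  refine ⟨(A, A ∪ N), ⟨hA1, Finset.union_subset hA2 hNp⟩, ⟨Finset.subset_union_left, ?_, Or.inr ⟨hrk, ?_⟩⟩, hrk⟩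
  · have e : (Pool.Agent.QU.gs ((A, A ∪ N) : Itv E)) = gs ((A, A ∪ N) : Itv E) := rfl
    rw [e, hg, hN, Finset.card_image_of_injective _ inj]
    rfl
  · intro i hi j hj k hk
    have e : (Pool.Agent.QU.gs ((A, A ∪ N) : Itv E)) = gs ((A, A ∪ N) : Itv E) := rfl
    rw [e, hg] at hi hj hk
    exact tri i hi j hj k hk

private theorem fn_s1 {A : Finset E} {a b c : E} : A ∪ {a, b, c} = A ∪ {b, a, c} := by
  ext w
  simp only [Finset.mem_union, Finset.mem_insert, Finset.mem_singleton]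
  tauto

private theorem fn_s2 {A : Finset E} {a b c : E} : A ∪ {a, b, c} = A ∪ {a, c, b} := by
  ext w
  simp only [Finset.mem_union, Finset.mem_insert, Finset.mem_singleton]
  tauto

/-- the same with ten conditions -/
theorem arc10 (hr : Rk r) {A : Finset E} (hA1 : p.1 ⊆ A) (hA2 : A ⊆ p.2) (h3 : r p.2 ≤ r A + 3) (x : Fin 5 → E) (hx2 : ∀ i, x i ∈ p.2)
    (a1 : r A + 3 ≤ r (A ∪ {x 0, x 1, x 2})) (a2 : r A + 3 ≤ r (A ∪ {x 0, x 1, x 3})) (a3 : r A + 3 ≤ r (A ∪ {x 0, x 1, x 4}))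
    (a4 : r A + 3 ≤ r (A ∪ {x 0, x 2, x 3})) (a5 : r A + 3 ≤ r (A ∪ {x 0, x 2, x 4})) (a6 : r A + 3 ≤ r (A ∪ {x 0, x 3, x 4}))
    (a7 : r A + 3 ≤ r (A ∪ {x 1, x 2, x 3})) (a8 : r A + 3 ≤ r (A ∪ {x 1, x 2, x 4})) (a9 : r A + 3 ≤ r (A ∪ {x 1, x 3, x 4}))
    (a10 : r A + 3 ≤ r (A ∪ {x 2, x 3, x 4})) : ∃ q : Itv E, Sub q p ∧ Rich r q ∧ r q.2 = r q.1 + 3 :=
  arcF hr hA1 hA2 h3 x hx2 (fn_ten (T := fun i j k => r A + 3 ≤ r (A ∪ {x i, x j, x k})) (fun i j k h => by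
    rw [fn_s1]
    exact h) (fun i j k h => by
    rw [fn_s2]
    exact h) a1 a2 a3 a4 a5 a6 a7 a8 a9 a10)

/-- two sets of rank two over `A` with a common independent pair -/
theorem fn_glue (hr : Rk r) {A X Y : Finset E} {u v : E} (huv : r A + 2 ≤ r (A ∪ {u, v})) (hX : r (A ∪ X) ≤ r A + 2)
    (hY : r (A ∪ Y) ≤ r A + 2) (uX : u ∈ X) (vX : v ∈ X) (uY : u ∈ Y) (vY : v ∈ Y) : r (A ∪ (X ∪ Y)) ≤ r A + 2 := by
  have h1 := hr.sub (A ∪ X) (A ∪ Y)
  have e1 : (A ∪ X) ∪ (A ∪ Y) = A ∪ (X ∪ Y) := by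
    ext w
    simp only [Finset.mem_union]
    tauto
  have h2 := hr.mono (A ∪ {u, v}) ((A ∪ X) ∩ (A ∪ Y)) (by
    intro w hw
    simp only [Finset.mem_union, Finset.mem_insert, Finset.mem_singleton, Finset.mem_inter] at hw ⊢
    rcases hw with h | rfl | rfl
    · exact ⟨Or.inl h, Or.inl h⟩
    · exact ⟨Or.inr uX, Or.inr uY⟩
    · exact ⟨Or.inr vX, Or.inr vY⟩)
  rw [e1] at h1
  linarith

end Pool.Agent.QU
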