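import Pool.Agent.QUO.Fan
import Pool.Agent.QUB.Move

/-!
# QUO/FanC: the connected lemma for fans

`hpl`: four of the classes are on a line of `p / A` for every `A` of rank `r W - 1`. Then the same holds for every `K` such that `W / K` has a connected
spanning restriction.
-/

set_option autoImplicit false

open QUB

namespace Pool.Agent.QU

variable {E : Type} [DecidableEq E] {r : Finset E → ℤ} {p : Itv E} {W : Finset E} {P : Fin 5 → Finset E}

private theorem fc_gs {K X : Finset E} (hd : Disjoint K X) : gs ((K, K ∪ X) : Itv E) = X := by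
  ext w
  have h : w ∈ X → w ∉ K := fun h h' => Finset.disjoint_left.1 hd h' h
  simp only [gs, Finset.mem_sdiff, Finset.mem_union]
  tauto

/-- two contractions with the same class -/
private theorem fc_same (hr : Rk r) (hF : Fan r p W P) {K : Finset E} {h h' : E} (hKW : K ⊆ W) (hW : h ∈ W) (hW' : h' ∈ W)
    (h2 : r K + 2 ≤ r (K ∪ {h, h'})) {j : Fin 5} (g : r (insert h K ∪ Qf P j) ≤ r K + 3) (g' : r (insert h' K ∪ Qf P j) ≤ r K + 3) :
    r (K ∪ Qf P j) ≤ r K + 2 := by
  have h1 := hr.sub (insert h K ∪ Qf P j) (insert h' K ∪ Qf P j)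
  have hsub : K ∪ {h, h'} ⊆ W := by
    refine Finset.union_subset hKW ?_
    intro w hw
    rcases Finset.mem_insert.1 hw with rfl | hw
    · exact hW
    · rw [Finset.mem_singleton.1 hw]
      exact hW'
  have h3 := hF.lowQ hr hsub j
  have h4 := hr.mono ((K ∪ {h, h'}) ∪ Qf P j) ((insert h K ∪ Qf P j) ∪ (insert h' K ∪ Qf P j)) (by
    intro w
    simp only [Finset.mem_union, Finset.mem_insert, Finset.mem_singleton]
    tauto)
  have h5 := hr.mono (K ∪ Qf P j) ((insert h K ∪ Qf P j) ∩ (insert h' K ∪ Qf P j)) (by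
    intro w
    simp only [Finset.mem_union, Finset.mem_inter, Finset.mem_insert]
    tauto)
  linarith

private theorem fc_del (hr : Rk r) {K X : Finset E} (hd : Disjoint K X) (hC : Cn r (K, K ∪ X)) {h : E} (hh : h ∈ X)
    (hne : (X.erase h).Nonempty) : r (K ∪ X.erase h) = r (K ∪ X) ∧ r (insert h K) = r K + 1 := by
  have hg := fc_gs hd
  have h1 := hC.single (x := h) (by rw [hg]; exact hh) (by rw [hg]; exact hne)
  have h1' : 1 ≤ r (K ∪ {h}) + r ((K ∪ X) \ {h}) - r (K ∪ X) - r K := h1
  have hK : h ∉ K := fun h' => Finset.disjoint_left.1 hd h' hh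
  have e1 : K ∪ {h} = insert h K := by
    rw [Finset.union_comm, ← Finset.insert_eq]
  have e2 : (K ∪ X) \ {h} = K ∪ X.erase h := by
    ext w
    simp only [Finset.mem_sdiff, Finset.mem_union, Finset.mem_singleton, Finset.mem_erase]
    constructor
    · rintro ⟨a | a, b⟩
      · exact Or.inl a
      · exact Or.inr ⟨b, a⟩
    · rintro (a | ⟨a, b⟩)
      · exact ⟨Or.inl a, fun h' => hK (h' ▸ a)⟩
      · exact ⟨Or.inr b, a⟩
  rw [e1, e2] at h1'
  have h2 := hr.unit K h
  have h3 := hr.mono (K ∪ X.erase h) (K ∪ X) (Finset.union_subset_union_right (Finset.erase_subset _ _))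
  constructor <;> linarith

/-- three elements, pairwise independent over `K` -/
private theorem fc_three (hr : Rk r) {K X : Finset E} (hd : Disjoint K X) (hC : Cn r (K, K ∪ X)) (hne : X.Nonempty) (h2 : r K + 2 ≤ r (K ∪ X)) :
    ∃ h1 ∈ X, ∃ h2 ∈ X, ∃ h3 ∈ X, r K + 2 ≤ r (K ∪ {h1, h2}) ∧ r K + 2 ≤ r (K ∪ {h1, h3}) ∧ r K + 2 ≤ r (K ∪ {h2, h3}) := by
  have hg := fc_gs hd
  have cl1 : ∀ (h : E) (Y : Finset E), (∀ z ∈ Y, r (K ∪ {h, z}) ≤ r K + 1) → r K + 1 ≤ r (insert h K) → r (K ∪ Y) ≤ r K + 1 := by
    intro h Y hY h1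
    have h3 := hr.unit K h
    have h4 := fn_cl hr (C := insert h K) Y fun z hz => by
      have e : insert z (insert h K) = K ∪ {h, z} := by
        ext w
        simp only [Finset.mem_union, Finset.mem_insert, Finset.mem_singleton]
        tauto
      rw [e]
      have := hY z hz
      linarith
    have h5 := hr.mono (K ∪ Y) (insert h K ∪ Y) (Finset.union_subset_union_left (Finset.subset_insert _ _))
    linarith
  have one : ∀ h ∈ X, r K + 1 ≤ r (insert h K) := by
    intro h hh
    have hne' : (X.erase h).Nonempty := by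
      rw [Finset.nonempty_iff_ne_empty]
      intro h0
      have h3 : X = {h} := by
        have := Finset.insert_erase hh
        rw [h0] at this
        exact this.symm
      rw [h3] at h2
      have e : K ∪ {h} = insert h K := by
        rw [Finset.union_comm, ← Finset.insert_eq]
      rw [e] at h2
      have := hr.unit K h
      omega
    exact (fc_del hr hd hC hh hne').2.ge
  obtain ⟨h1, hh1⟩ := hne
  set X1 := X.filter fun h => r (K ∪ {h1, h}) ≤ r K + 1 with hX1
  have r1 : r (K ∪ X1) ≤ r K + 1 := cl1 h1 X1 (fun z hz => (Finset.mem_filter.1 hz).2) (one h1 hh1)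
  have hX2 : (X \ X1).Nonempty := by
    rw [Finset.nonempty_iff_ne_empty]
    intro h0
    have h3 : X ⊆ X1 := Finset.sdiff_eq_empty_iff_subset.1 h0
    have h4 := hr.mono (K ∪ X) (K ∪ X1) (Finset.union_subset_union_right h3)
    omega
  obtain ⟨a, ha⟩ := hX2
  have haX := (Finset.mem_sdiff.1 ha).1
  have out : ∀ h ∈ X \ X1, r K + 2 ≤ r (K ∪ {h1, h}) := by
    intro h hh
    by_contra hcon
    exact (Finset.mem_sdiff.1 hh).2 (Finset.mem_filter.2 ⟨(Finset.mem_sdiff.1 hh).1, by omega⟩)
  by_contra hcon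
  have r2 : r (K ∪ (X \ X1)) ≤ r K + 1 := by
    refine cl1 a (X \ X1) (fun z hz => ?_) (one a haX)
    by_contra h5
    exact hcon ⟨h1, hh1, a, haX, z, (Finset.mem_sdiff.1 hz).1, out a ha, out z hz, by omega⟩
  have h11 : h1 ∈ X1 := by
    refine Finset.mem_filter.2 ⟨hh1, ?_⟩
    have e : K ∪ {h1, h1} = insert h1 K := by
      ext w
      simp only [Finset.mem_union, Finset.mem_insert, Finset.mem_singleton]
      tauto
    rw [e]
    exact hr.unit K h1
  have h6 := hC X1 (by rw [hg]; exact Finset.filter_subset _ _) ⟨h1, h11⟩ (by rw [hg]; exact ⟨a, ha⟩)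
  have h6' : 1 ≤ r (K ∪ X1) + r ((K ∪ X) \ X1) - r (K ∪ X) - r K := h6
  have h7 := hr.mono ((K ∪ X) \ X1) (K ∪ (X \ X1)) (by
    intro w
    simp only [Finset.mem_sdiff, Finset.mem_union]
    tauto)
  linarith

private theorem fc_ex2 : ∀ a b c : Fin 5, ∃ x y : Fin 5, x ≠ y ∧ x ≠ a ∧ x ≠ b ∧ x ≠ c ∧ y ≠ a ∧ y ≠ b ∧ y ≠ c := by decide

/-- the connected lemma -/
theorem fan_cl (hr : Rk r) (hF : Fan r p W P)
    (hpl : ∀ A, p.1 ⊆ A → A ⊆ W → r A + 1 = r W → ∃ j, r (A ∪ Qf P j) ≤ r A + 2) :
    ∀ (m : ℕ) (X K : Finset E), X.card = m → p.1 ⊆ K → K ∪ X ⊆ W → Disjoint K X → r (K ∪ X) = r W → X.Nonempty →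
      Cn r (K, K ∪ X) → ∃ j, r (K ∪ Qf P j) ≤ r K + 2 := by
  intro m
  induction m with
  | zero =>
    intro X K hX _ _ _ _ hne _
    exact absurd hX (Finset.card_pos.2 hne).ne'
  | succ m ih =>
    intro X K hXc hpK hKX hd hrk hne hC
    have hKW : K ⊆ W := Finset.subset_union_left.trans hKX
    have hXW : X ⊆ W := Finset.subset_union_right.trans hKX
    by_contra hng
    push Not at hng
    have hQU : ∀ j, Qf P j ⊆ Finset.univ.biUnion P := fun j => Finset.biUnion_subset_biUnion_of_subset_left _ (Finset.erase_subset _ _)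
    have hlt : r K < r W := by
      by_contra h
      have h1 := hng 0
      have h2 := hr.mono (K ∪ Qf P 0) p.2 (by
        rw [← hF.hU]
        exact Finset.union_subset_union hKW (hQU 0))
      have h3 := hF.rW
      omega
    have hne1 : r K + 1 ≠ r W := by
      intro h
      obtain ⟨j, hj⟩ := hpl K hpK hKW h
      have := hng j
      omega
    have h2W : r K + 2 ≤ r W := by omega
    have hg := fc_gs hd
    have hers : ∀ h ∈ X, (X.erase h).Nonempty := by
      intro h hh
      rw [Finset.nonempty_iff_ne_empty]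
      intro h0
      have h3 : X = {h} := by
        have := Finset.insert_erase hh
        rw [h0] at this
        exact this.symm
      rw [h3] at hrk
      have e : K ∪ {h} = insert h K := by
        rw [Finset.union_comm, ← Finset.insert_eq]
      rw [e] at hrk
      have := hr.unit K h
      omega
    have one : ∀ h ∈ X, r (insert h K) = r K + 1 := fun h hh => (fc_del hr hd hC hh (hers h hh)).2
    have con : ∀ h ∈ X, ∃ j, r (insert h K ∪ Qf P j) ≤ r K + 3 := by
      intro h hh
      have hKh : h ∉ K := fun h' => Finset.disjoint_left.1 hd h' hh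
      have hcard : (X.erase h).card = m := by rw [Finset.card_erase_of_mem hh]; omega
      rcases tutte (p := ((K, K ∪ X) : Itv E)) hr Finset.subset_union_left (x := h) (by rw [hg]; exact hh) hC with h1 | h1
      · -- deletion
        have e : rm true h ((K, K ∪ X) : Itv E) = (K, K ∪ X.erase h) := by
          have e0 : (K ∪ X).erase h = K ∪ X.erase h := by
            ext w
            simp only [Finset.mem_erase, Finset.mem_union]
            constructor
            · rintro ⟨a, b | b⟩
              · exact Or.inl b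
              · exact Or.inr ⟨a, b⟩
            · rintro (a | ⟨a, b⟩)
              · exact ⟨fun h' => hKh (h' ▸ a), Or.inl a⟩
              · exact ⟨a, Or.inr b⟩
          show (K, (K ∪ X).erase h) = (K, K ∪ X.erase h)
          rw [e0]
        rw [e] at h1
        obtain ⟨j, hj⟩ := ih (X.erase h) K hcard hpK ((Finset.union_subset_union_right (Finset.erase_subset _ _)).trans hKX)
          (Finset.disjoint_of_subset_right (Finset.erase_subset _ _) hd) (by rw [(fc_del hr hd hC hh (hers h hh)).1, hrk]) (hers h hh) h1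
        have := hng j
        omega
      · -- contraction
        have e : rm false h ((K, K ∪ X) : Itv E) = (insert h K, insert h K ∪ X.erase h) := by
          have e0 : K ∪ X = insert h K ∪ X.erase h := by
            ext w
            simp only [Finset.mem_erase, Finset.mem_union, Finset.mem_insert]
            constructor
            · rintro (a | a)
              · exact Or.inl (Or.inr a)
              · by_cases hwh : w = h
                · exact Or.inl (Or.inl hwh)
                · exact Or.inr ⟨hwh, a⟩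
            · rintro ((a | a) | ⟨a, b⟩)
              · exact Or.inr (a ▸ hh)
              · exact Or.inl a
              · exact Or.inr b
          show (insert h K, K ∪ X) = (insert h K, insert h K ∪ X.erase h)
          rw [← e0]
        rw [e] at h1
        have e0 : insert h K ∪ X.erase h = K ∪ X := by
          have := congrArg Prod.snd e
          exact this.symm
        obtain ⟨j, hj⟩ := ih (X.erase h) (insert h K) hcard (hpK.trans (Finset.subset_insert _ _)) (by rw [e0]; exact hKX) (by
          rw [Finset.disjoint_left]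
          intro w hw hw'
          rcases Finset.mem_insert.1 hw with rfl | hw
          · exact (Finset.mem_erase.1 hw').1 rfl
          · exact Finset.disjoint_left.1 hd hw (Finset.mem_erase.1 hw').2) (by rw [e0, hrk]) (hers h hh) h1
        refine ⟨j, ?_⟩
        have := one h hh
        omega
    obtain ⟨h1, m1, h2, m2, h3, m3, i12, i13, i23⟩ := fc_three hr hd hC hne (by rw [hrk]; exact h2W)
    obtain ⟨j1, g1⟩ := con h1 m1
    obtain ⟨j2, g2⟩ := con h2 m2
    obtain ⟨j3, g3⟩ := con h3 m3
    have n12 : j1 ≠ j2 := by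
      rintro rfl
      have := fc_same hr hF hKW (hXW m1) (hXW m2) i12 g1 g2
      have := hng j1
      omega
    have n13 : j1 ≠ j3 := by
      rintro rfl
      have := fc_same hr hF hKW (hXW m1) (hXW m3) i13 g1 g3
      have := hng j1
      omega
    have n23 : j2 ≠ j3 := by
      rintro rfl
      have := fc_same hr hF hKW (hXW m2) (hXW m3) i23 g2 g3
      have := hng j2
      omega
    -- all elements of `X` are in the closure of the classes
    have hcl : r ((K ∪ Finset.univ.biUnion P) ∪ X) ≤ r (K ∪ Finset.univ.biUnion P) := by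
      refine fn_cl hr X fun z hz => ?_
      obtain ⟨j, hj⟩ := con z hz
      have a1 := marg hr (show K ∪ Qf P j ⊆ K ∪ Finset.univ.biUnion P from Finset.union_subset_union_right (hQU j)) z
      have a2 := hng j
      rw [Finset.insert_union] at hj
      omega
    have a3 := fn_mg hr (Finset.univ.biUnion P) hKX
    rw [hF.hU, hF.rW, hrk] at a3
    have a4 := hr.mono ((K ∪ X) ∪ Finset.univ.biUnion P) ((K ∪ Finset.univ.biUnion P) ∪ X) (by
      intro w
      simp only [Finset.mem_union]
      tauto)
    have hR : r W + 2 ≤ r (K ∪ Finset.univ.biUnion P) := by linarith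
    have up : ∀ {h : E} {j : Fin 5}, r (insert h K ∪ Qf P j) ≤ r K + 3 → r (K ∪ Qf P j) ≤ r K + 3 := by
      intro h j hj
      exact (hr.mono _ _ (Finset.union_subset_union_left (Finset.subset_insert h K))).trans hj
    -- the intersections of two of the sets
    have int : ∀ a b : Fin 5, a ≠ b → r (K ∪ Qf P a) ≤ r K + 3 → r (K ∪ Qf P b) ≤ r K + 3 → r (K ∪ (Qf P a ∩ Qf P b)) ≤ r K + 2 := by
      intro a b hab ha hb
      have b1 := hr.sub (K ∪ Qf P a) (K ∪ Qf P b)
      have b2 := hr.mono (K ∪ Finset.univ.biUnion P) ((K ∪ Qf P a) ∪ (K ∪ Qf P b)) (by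
        intro w hw
        rcases Finset.mem_union.1 hw with hw | hw
        · exact Finset.mem_union_left _ (Finset.mem_union_left _ hw)
        · obtain ⟨k, -, hk⟩ := Finset.mem_biUnion.1 hw
          by_cases hka : k = a
          · exact Finset.mem_union_right _ (Finset.mem_union_right _ (mem_Qf.2 ⟨k, fun h => hab (hka.symm.trans h), hk⟩))
          · exact Finset.mem_union_left _ (Finset.mem_union_right _ (mem_Qf.2 ⟨k, hka, hk⟩)))
      have b3 := hr.mono (K ∪ (Qf P a ∩ Qf P b)) ((K ∪ Qf P a) ∩ (K ∪ Qf P b)) (by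
        intro w
        simp only [Finset.mem_union, Finset.mem_inter]
        tauto)
      linarith
    have q1 := int j1 j2 n12 (up g1) (up g2)
    have q2 := int j1 j3 n13 (up g1) (up g3)
    obtain ⟨x, y, hxy, x1, x2, x3, y1, y2, y3⟩ := fc_ex2 j1 j2 j3
    obtain ⟨s, hs⟩ := hF.ne x
    obtain ⟨t, ht⟩ := hF.ne y
    have q3 := fn_glue hr (hF.pr hr hKW hxy hs ht) q1 q2
      (Finset.mem_inter.2 ⟨mem_Qf.2 ⟨x, x1, hs⟩, mem_Qf.2 ⟨x, x2, hs⟩⟩) (Finset.mem_inter.2 ⟨mem_Qf.2 ⟨y, y1, ht⟩, mem_Qf.2 ⟨y, y2, ht⟩⟩)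
      (Finset.mem_inter.2 ⟨mem_Qf.2 ⟨x, x1, hs⟩, mem_Qf.2 ⟨x, x3, hs⟩⟩) (Finset.mem_inter.2 ⟨mem_Qf.2 ⟨y, y1, ht⟩, mem_Qf.2 ⟨y, y3, ht⟩⟩)
    have q4 := hr.mono (K ∪ Qf P j1) (K ∪ ((Qf P j1 ∩ Qf P j2) ∪ (Qf P j1 ∩ Qf P j3))) (by
      refine Finset.union_subset_union_right ?_
      intro w hw
      obtain ⟨k, hk1, hk⟩ := mem_Qf.1 hw
      by_cases hk2 : k = j2
      · exact Finset.mem_union_right _ (Finset.mem_inter.2 ⟨hw, mem_Qf.2 ⟨k, fun h => n23 (hk2.symm.trans h), hk⟩⟩)
      · exact Finset.mem_union_left _ (Finset.mem_inter.2 ⟨hw, mem_Qf.2 ⟨k, hk2, hk⟩⟩))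
    have q5 := hng j1
    omega

end Pool.Agent.QU
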