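import Pool.Agent.QUO.FanC

/-!
# QUO/FanS: a fan in a 3-connected box

`fan_false`: in a 3-connected box `p` of rank at least three with a fan there is a set `A` of rank `r W - 1` between `p.1` and `W` such that no four of
the classes are on a line of `p / A`.
-/

set_option autoImplicit false

noncomputable section

open QUB
open scoped Classical

namespace Pool.Agent.QU

variable {E : Type} [DecidableEq E] {r : Finset E → ℤ} {p : Itv E} {W : Finset E} {P : Fin 5 → Finset E}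

/-- `X` is a separator of `W / p.1` -/
private def Se (r : Finset E → ℤ) (C W X : Finset E) : Prop :=
  X ⊆ W \ C ∧ r (C ∪ X) + r (C ∪ ((W \ C) \ X)) ≤ r W + r C

private theorem se_ge (hr : Rk r) {C : Finset E} (hC : C ⊆ W) {X : Finset E} (hX : X ⊆ W \ C) :
    r W + r C ≤ r (C ∪ X) + r (C ∪ ((W \ C) \ X)) := by
  have h := hr.sub (C ∪ X) (C ∪ ((W \ C) \ X))
  have h1 := hr.mono W ((C ∪ X) ∪ (C ∪ ((W \ C) \ X))) (by
    intro w
    simp only [Finset.mem_union, Finset.mem_sdiff]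
    tauto)
  have h2 := hr.mono C ((C ∪ X) ∩ (C ∪ ((W \ C) \ X))) (by
    intro w
    simp only [Finset.mem_union, Finset.mem_inter]
    tauto)
  linarith

private theorem se_compl {C X : Finset E} (h : Se r C W X) : Se r C W ((W \ C) \ X) := by
  refine ⟨Finset.sdiff_subset, ?_⟩
  rw [Finset.sdiff_sdiff_eq_self h.1]
  have := h.2
  linarith

private theorem se_mod (hr : Rk r) {C : Finset E} (hC : C ⊆ W) {X Y : Finset E} (hX : Se r C W X) (hY : Se r C W Y) :
    Se r C W (X ∩ Y) ∧ Se r C W (X ∪ Y) ∧ r (C ∪ (X ∩ Y)) + r (C ∪ (X ∪ Y)) = r (C ∪ X) + r (C ∪ Y) := by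
  have s1 : X ∩ Y ⊆ W \ C := Finset.inter_subset_left.trans hX.1
  have s2 : X ∪ Y ⊆ W \ C := Finset.union_subset hX.1 hY.1
  have g1 := se_ge hr hC s1
  have g2 := se_ge hr hC s2
  have h1 := hr.sub (C ∪ X) (C ∪ Y)
  have h2 := hr.sub (C ∪ ((W \ C) \ X)) (C ∪ ((W \ C) \ Y))
  have e1 : (C ∪ X) ∪ (C ∪ Y) = C ∪ (X ∪ Y) := by ext w; simp only [Finset.mem_union]; tauto
  have e2 : (C ∪ X) ∩ (C ∪ Y) = C ∪ (X ∩ Y) := by ext w; simp only [Finset.mem_union, Finset.mem_inter]; tauto
  have e3 : (C ∪ ((W \ C) \ X)) ∪ (C ∪ ((W \ C) \ Y)) = C ∪ ((W \ C) \ (X ∩ Y)) := by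
    ext w; simp only [Finset.mem_union, Finset.mem_inter, Finset.mem_sdiff]; tauto
  have e4 : (C ∪ ((W \ C) \ X)) ∩ (C ∪ ((W \ C) \ Y)) = C ∪ ((W \ C) \ (X ∪ Y)) := by
    ext w; simp only [Finset.mem_union, Finset.mem_inter, Finset.mem_sdiff]; tauto
  rw [e1, e2] at h1
  rw [e3, e4] at h2
  have hx := hX.2
  have hy := hY.2
  exact ⟨⟨s1, by linarith⟩, ⟨s2, by linarith⟩, by linarith⟩

/-- intersections of separators -/
private theorem se_int (hr : Rk r) {C : Finset E} (hC : C ⊆ W) {Q : Finset E} {n : ℤ} (hlow : ∀ Z ⊆ W \ C, r (C ∪ Z) + n ≤ r ((C ∪ Z) ∪ Q))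
    {X Y : Finset E} (hX : Se r C W X) (hY : Se r C W Y) (gX : r ((C ∪ X) ∪ Q) ≤ r (C ∪ X) + n) (gY : r ((C ∪ Y) ∪ Q) ≤ r (C ∪ Y) + n) :
    r ((C ∪ (X ∩ Y)) ∪ Q) ≤ r (C ∪ (X ∩ Y)) + n := by
  obtain ⟨-, s2, h1⟩ := se_mod hr hC hX hY
  have h2 := hr.sub ((C ∪ X) ∪ Q) ((C ∪ Y) ∪ Q)
  have h3 := hlow (X ∪ Y) s2.1
  have e1 : ((C ∪ X) ∪ Q) ∪ ((C ∪ Y) ∪ Q) = (C ∪ (X ∪ Y)) ∪ Q := by
    ext w; simp only [Finset.mem_union]; tauto
  have h4 := hr.mono ((C ∪ (X ∩ Y)) ∪ Q) (((C ∪ X) ∪ Q) ∩ ((C ∪ Y) ∪ Q)) (by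
    intro w
    simp only [Finset.mem_union, Finset.mem_inter]
    tauto)
  rw [e1] at h2
  linarith

/-- a separator which is good for a class -/
theorem fan_wc (hr : Rk r) (hF : Fan r p W P)
    (hpl : ∀ A, p.1 ⊆ A → A ⊆ W → r A + 1 = r W → ∃ j, r (A ∪ Qf P j) ≤ r A + 2) :
    ∀ (m : ℕ) (Z K : Finset E), Z.card ≤ m → p.1 ⊆ K → K ∪ Z = W → Disjoint K Z → Z.Nonempty →
      ∃ B A : Finset E, B ∪ A = Z ∧ Disjoint B A ∧ B.Nonempty ∧ r (K ∪ B) + r (K ∪ A) ≤ r W + r K ∧
        ∃ j, r ((K ∪ A) ∪ Qf P j) ≤ r (K ∪ A) + 2 := by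
  intro m
  induction m with
  | zero =>
    intro Z K hZ _ _ _ hne
    have := Finset.card_pos.2 hne
    omega
  | succ m ih =>
    intro Z K hZ hpK hKZ hd hne
    by_cases hC : Cn r (K, K ∪ Z)
    · obtain ⟨j, hj⟩ := fan_cl hr hF hpl Z.card Z K rfl hpK (by rw [hKZ]) hd (by rw [hKZ]) hne hC
      exact ⟨Z, ∅, Finset.union_empty Z, Finset.disjoint_empty_right _, hne, by rw [hKZ, Finset.union_empty], j, by
        rw [Finset.union_empty]
        exact hj⟩
    · unfold Cn at hC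
      push Not at hC
      obtain ⟨A1, hA1, nA, nB, hl⟩ := hC
      have hg : gs ((K, K ∪ Z) : Itv E) = Z := by
        ext w
        have h : w ∈ Z → w ∉ K := fun h h' => Finset.disjoint_left.1 hd h' h
        simp only [gs, Finset.mem_sdiff, Finset.mem_union]
        tauto
      rw [hg] at hA1 nB
      have hl' : r (K ∪ A1) + r ((K ∪ Z) \ A1) - r (K ∪ Z) - r K < 1 := hl
      have e1 : (K ∪ Z) \ A1 = K ∪ (Z \ A1) := by
        ext w
        have h : w ∈ A1 → w ∉ K := fun h h' => Finset.disjoint_left.1 hd h' (hA1 h)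
        simp only [Finset.mem_sdiff, Finset.mem_union]
        tauto
      rw [e1, hKZ] at hl'
      have hcard : (Z \ A1).card ≤ m := by
        have h1 := Finset.card_sdiff_add_card_eq_card hA1
        have h2 := Finset.card_pos.2 nA
        omega
      have hU : (K ∪ A1) ∪ (Z \ A1) = W := by
        rw [← hKZ]
        ext w
        have h : w ∈ A1 → w ∈ Z := fun h => hA1 h
        simp only [Finset.mem_sdiff, Finset.mem_union]
        tauto
      obtain ⟨B, A, hBA, hdBA, hB, hs, j, hj⟩ := ih (Z \ A1) (K ∪ A1) hcard (hpK.trans Finset.subset_union_left) hU (by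
        rw [Finset.disjoint_left]
        intro w hw hw'
        rcases Finset.mem_union.1 hw with hw | hw
        · exact Finset.disjoint_left.1 hd hw (Finset.mem_sdiff.1 hw').1
        · exact (Finset.mem_sdiff.1 hw').2 hw) nB
      have hBs : B ⊆ Z \ A1 := hBA ▸ Finset.subset_union_left
      refine ⟨B, A1 ∪ A, ?_, ?_, hB, ?_, j, ?_⟩
      · rw [← Finset.union_assoc, Finset.union_comm B A1, Finset.union_assoc, hBA, Finset.union_sdiff_of_subset hA1]
      · rw [Finset.disjoint_union_right]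
        exact ⟨Finset.disjoint_left.2 fun w hw => (Finset.mem_sdiff.1 (hBs hw)).2, hdBA⟩
      · have h1 := fn_mg hr (A := K ∪ B) (B := (K ∪ A1) ∪ B) (Z \ A1) (by
          intro w
          simp only [Finset.mem_union]
          tauto)
        have e2 : ((K ∪ A1) ∪ B) ∪ (Z \ A1) = W := by
          rw [← hU]
          ext w
          have h := @hBs w
          simp only [Finset.mem_sdiff, Finset.mem_union] at h ⊢
          tauto
        have e3 : (K ∪ B) ∪ (Z \ A1) = K ∪ (Z \ A1) := by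
          ext w
          have h := @hBs w
          simp only [Finset.mem_sdiff, Finset.mem_union] at h ⊢
          tauto
        rw [e2, e3] at h1
        have e4 : K ∪ (A1 ∪ A) = (K ∪ A1) ∪ A := (Finset.union_assoc _ _ _).symm
        rw [e4]
        linarith
      · rw [← Finset.union_assoc]
        exact hj

private theorem fs_ex2 : ∀ a : Fin 5, ∃ x y : Fin 5, x ≠ y ∧ x ≠ a ∧ y ≠ a := by decide
private theorem fs_ex1 : ∀ a b : Fin 5, ∃ x : Fin 5, x ≠ a ∧ x ≠ b := by decide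

/-- a fan of a 3-connected box is not good over all sets of rank `r W - 1` -/
theorem fan_false (hr : Rk r) (h3 : Th3 r p) (hF : Fan r p W P)
    (hpl : ∀ A, p.1 ⊆ A → A ⊆ W → r A + 1 = r W → ∃ j, r (A ∪ Qf P j) ≤ r A + 2) (hW : (W \ p.1).Nonempty) : False := by
  set C := p.1 with hCdef
  have hC : C ⊆ W := hF.h1
  have hCW : C ∪ (W \ C) = W := Finset.union_sdiff_of_subset hC
  have lowQ : ∀ j : Fin 5, ∀ Z ⊆ W \ C, r (C ∪ Z) + 2 ≤ r ((C ∪ Z) ∪ Qf P j) := fun j Z hZ =>
    hF.lowQ hr (Finset.union_subset hC (hZ.trans Finset.sdiff_subset)) j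
  have lowP : ∀ j : Fin 5, ∀ Z ⊆ W \ C, r (C ∪ Z) + 1 ≤ r ((C ∪ Z) ∪ P j) := by
    intro j Z hZ
    have h1 := fn_mg hr (P j) (Finset.union_subset hC (hZ.trans Finset.sdiff_subset) : C ∪ Z ⊆ W)
    have h2 := hF.one j
    linarith
  -- the first minimal separator
  set S1 := (W \ C).powerset.filter (fun A => Se r C W A ∧ A ≠ W \ C ∧ ∃ j, r ((C ∪ A) ∪ Qf P j) ≤ r (C ∪ A) + 2) with hS1
  have nS1 : S1.Nonempty := by
    obtain ⟨B, A, hBA, hd, hB, hs, hj⟩ := fan_wc hr hF hpl (W \ C).card (W \ C) C le_rfl (Finset.Subset.refl _) hCW Finset.disjoint_sdiff hW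
    have hA : A ⊆ W \ C := hBA ▸ Finset.subset_union_right
    have eB : (W \ C) \ A = B := by
      rw [← hBA]
      ext w
      have h : w ∈ B → w ∉ A := fun h => Finset.disjoint_left.1 hd h
      simp only [Finset.mem_sdiff, Finset.mem_union]
      tauto
    refine ⟨A, Finset.mem_filter.2 ⟨Finset.mem_powerset.2 hA, ⟨hA, ?_⟩, ?_, hj⟩⟩
    · rw [eB]
      linarith
    · intro h
      rw [h, Finset.sdiff_self] at eB
      rw [← eB] at hB
      exact Finset.not_nonempty_empty hB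
  obtain ⟨A, hA, hAmin⟩ := Finset.exists_min_image S1 Finset.card nS1
  obtain ⟨hAp, hAs, hAne, j, hAj⟩ := Finset.mem_filter.1 hA
  have hAG : A ⊆ W \ C := Finset.mem_powerset.1 hAp
  obtain ⟨B, hB⟩ : ∃ B, B = (W \ C) \ A := ⟨_, rfl⟩
  have hBG : B ⊆ W \ C := hB ▸ Finset.sdiff_subset
  have hBs : Se r C W B := hB ▸ se_compl hAs
  have hAB : A ∪ B = W \ C := by rw [hB]; exact Finset.union_sdiff_of_subset hAG
  have hdAB : Disjoint A B := by rw [hB]; exact Finset.disjoint_sdiff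
  have hBne : B.Nonempty := by
    rw [Finset.nonempty_iff_ne_empty]
    intro h
    rw [h, Finset.union_empty] at hAB
    exact hAne hAB
  -- the second minimal separator
  set S2 := A.powerset.filter (fun Z => Se r C W Z ∧ r ((C ∪ (Z ∪ B)) ∪ P j) ≤ r (C ∪ (Z ∪ B)) + 1) with hS2
  have nS2 : S2.Nonempty := by
    refine ⟨A, Finset.mem_filter.2 ⟨Finset.mem_powerset.2 (Finset.Subset.refl _), hAs, ?_⟩⟩
    rw [hAB, hCW]
    exact (hF.one j).le
  obtain ⟨Z, hZ, hZmin⟩ := Finset.exists_min_image S2 Finset.card nS2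
  obtain ⟨hZp, hZs, hZ1⟩ := Finset.mem_filter.1 hZ
  have hZA : Z ⊆ A := Finset.mem_powerset.1 hZp
  have hZG : Z ⊆ W \ C := hZA.trans hAG
  have hZe : Z = ∅ := by
    rw [← Finset.not_nonempty_iff_eq_empty]
    intro hne
    obtain ⟨K, hK⟩ : ∃ K, K = C ∪ ((W \ C) \ Z) := ⟨_, rfl⟩
    have hKZ : K ∪ Z = W := by
      rw [hK, Finset.union_assoc, Finset.sdiff_union_of_subset hZG, hCW]
    have hdK : Disjoint K Z := by
      rw [hK, Finset.disjoint_left]
      intro w hw hw'
      rcases Finset.mem_union.1 hw with hw | hw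
      · exact (Finset.mem_sdiff.1 (hZG hw')).2 hw
      · exact (Finset.mem_sdiff.1 hw).2 hw'
    obtain ⟨B2, A2, hBA2, hd2, hB2, hs2, j2, hj2⟩ := fan_wc hr hF hpl Z.card Z K le_rfl (hK ▸ Finset.subset_union_left) hKZ hdK hne
    have hB2Z : B2 ⊆ Z := hBA2 ▸ Finset.subset_union_left
    have hA2Z : A2 ⊆ Z := hBA2 ▸ Finset.subset_union_right
    have hZs2 : r (C ∪ Z) + r K ≤ r W + r C := by
      rw [hK]
      exact hZs.2
    have skew : ∀ X ⊆ Z, r (C ∪ X) + r K ≤ r (K ∪ X) + r C := by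
      intro X hX
      have h1 := fn_mg hr (A := C ∪ X) (B := K ∪ X) Z (by
        rw [hK]
        intro w
        simp only [Finset.mem_union]
        tauto)
      have e2 : (K ∪ X) ∪ Z = W := by
        rw [← hKZ]
        ext w
        have h := @hX w
        simp only [Finset.mem_union]
        tauto
      have e3 : (C ∪ X) ∪ Z = C ∪ Z := by
        ext w
        have h := @hX w
        simp only [Finset.mem_union]
        tauto
      rw [e2, e3] at h1
      linarith
    have eKB : K ∪ B2 = C ∪ ((W \ C) \ A2) := by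
      rw [hK]
      ext w
      have a1 : w ∈ B2 ∨ w ∈ A2 ↔ w ∈ Z := by rw [← Finset.mem_union, hBA2]
      have a2 : w ∈ B2 → w ∉ A2 := fun h => Finset.disjoint_left.1 hd2 h
      have a3 : w ∈ Z → w ∈ W \ C := fun h => hZG h
      simp only [Finset.mem_union, Finset.mem_sdiff] at a3 ⊢
      tauto
    have eKA : K ∪ A2 = C ∪ ((W \ C) \ B2) := by
      rw [hK]
      ext w
      have a1 : w ∈ B2 ∨ w ∈ A2 ↔ w ∈ Z := by rw [← Finset.mem_union, hBA2]
      have a2 : w ∈ A2 → w ∉ B2 := fun h h' => Finset.disjoint_left.1 hd2 h' h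
      have a3 : w ∈ Z → w ∈ W \ C := fun h => hZG h
      simp only [Finset.mem_union, Finset.mem_sdiff] at a3 ⊢
      tauto
    have sA2 : Se r C W A2 := by
      refine ⟨hA2Z.trans hZG, ?_⟩
      rw [← eKB]
      have := skew A2 hA2Z
      linarith
    have sB2 : Se r C W B2 := by
      refine ⟨hB2Z.trans hZG, ?_⟩
      rw [← eKA]
      have := skew B2 hB2Z
      linarith
    have sX := se_compl sB2
    have hltA : (A \ B2).card < A.card := by
      refine Finset.card_lt_card ⟨Finset.sdiff_subset, fun h => ?_⟩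
      obtain ⟨w, hw⟩ := hB2
      exact (Finset.mem_sdiff.1 (h (hZA (hB2Z hw)))).2 hw
    by_cases hjj : j2 = j
    · subst hjj
      have g := se_int hr hC (lowQ j2) sX hAs (by rw [← eKA]; exact hj2) hAj
      have e4 : ((W \ C) \ B2) ∩ A = A \ B2 := by
        ext w
        have a1 : w ∈ A → w ∈ W \ C := fun h => hAG h
        simp only [Finset.mem_inter, Finset.mem_sdiff] at a1 ⊢
        tauto
      have s := (se_mod hr hC sX hAs).1
      rw [e4] at g s
      have hmem : A \ B2 ∈ S1 := Finset.mem_filter.2 ⟨Finset.mem_powerset.2 s.1, s, fun h => hAne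
        (Finset.Subset.antisymm hAG (h ▸ Finset.sdiff_subset)), j2, g⟩
      have := hAmin _ hmem
      omega
    · -- the class `j` is on a line
      have h1 : r ((K ∪ A2) ∪ P j) ≤ r (K ∪ A2) + 1 := by
        obtain ⟨l, hl1, hl2⟩ := fs_ex1 j j2
        obtain ⟨s', hs'⟩ := hF.ne l
        obtain ⟨s, hs⟩ := hF.ne j
        have hKA : K ∪ A2 ⊆ W := by
          rw [← hKZ]
          exact Finset.union_subset_union_right hA2Z
        have h2 := fn_mg hr (A := (K ∪ A2) ∪ P j) (B := W ∪ P j) {s'} (Finset.union_subset_union_left hKA)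
        have h3 := hr.mono (((K ∪ A2) ∪ P j) ∪ {s'}) ((K ∪ A2) ∪ Qf P j2) (by
          intro w hw
          rcases Finset.mem_union.1 hw with hw | hw
          · rcases Finset.mem_union.1 hw with hw | hw
            · exact Finset.mem_union_left _ hw
            · exact Finset.mem_union_right _ (mem_Qf.2 ⟨j, Ne.symm hjj, hw⟩)
          · rw [Finset.mem_singleton.1 hw]
            exact Finset.mem_union_right _ (mem_Qf.2 ⟨l, hl2, hs'⟩))
        have h4 := hF.two l j hl1 s' hs' s hs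
        have h5 := hr.mono (insert s' (insert s W)) ((W ∪ P j) ∪ {s'}) (by
          intro w hw
          rcases Finset.mem_insert.1 hw with rfl | hw
          · exact Finset.mem_union_right _ (Finset.mem_singleton_self _)
          · rcases Finset.mem_insert.1 hw with rfl | hw
            · exact Finset.mem_union_left _ (Finset.mem_union_right _ hs)
            · exact Finset.mem_union_left _ (Finset.mem_union_left _ hw))
        have h6 := hF.one j
        linarith
      have sY := (se_mod hr hC hZs hBs).2.1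
      have g := se_int hr hC (lowP j) sX sY (by rw [← eKA]; exact h1) hZ1
      have e4 : ((W \ C) \ B2) ∩ (Z ∪ B) = A2 ∪ B := by
        ext w
        have a1 : w ∈ B2 ∨ w ∈ A2 ↔ w ∈ Z := by rw [← Finset.mem_union, hBA2]
        have a2 : w ∈ A2 → w ∉ B2 := fun h h' => Finset.disjoint_left.1 hd2 h' h
        have a3 : w ∈ Z → w ∈ W \ C := fun h => hZG h
        have a4 : w ∈ B → w ∈ W \ C := fun h => hBG h
        have a5 : w ∈ B → w ∉ Z := fun h h' => Finset.disjoint_left.1 hdAB (hZA h') h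
        simp only [Finset.mem_inter, Finset.mem_union, Finset.mem_sdiff] at a3 a4 ⊢
        tauto
      rw [e4] at g
      have hmem : A2 ∈ S2 := Finset.mem_filter.2 ⟨Finset.mem_powerset.2 (hA2Z.trans hZA), sA2, g⟩
      have h7 := hZmin _ hmem
      have h8 : A2.card < Z.card := by
        rw [← hBA2, Finset.card_union_of_disjoint hd2]
        have := Finset.card_pos.2 hB2
        omega
      omega
  -- the separation
  rw [hZe, Finset.empty_union] at hZ1
  obtain ⟨b, hb⟩ := hBne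
  obtain ⟨s, hs⟩ := hF.ne j
  obtain ⟨x, y, hxy, hxj, hyj⟩ := fs_ex2 j
  obtain ⟨u, hu⟩ := hF.ne x
  obtain ⟨v, hv⟩ := hF.ne y
  have nW : ∀ {k : Fin 5} {w : E}, w ∈ P k → w ∉ W := fun {k w} h h' => Finset.disjoint_left.1 (hF.dW k) h h'
  have hPg : ∀ k, P k ⊆ gs p := fun k w hw => Finset.mem_sdiff.2 ⟨hF.hP2 k hw, fun h => nW hw (hC h)⟩
  have hBg : B ⊆ gs p := fun w hw => Finset.mem_sdiff.2 ⟨hF.hW2 (Finset.mem_sdiff.1 (hBG hw)).1, (Finset.mem_sdiff.1 (hBG hw)).2⟩
  have hbW : b ∈ W := (Finset.mem_sdiff.1 (hBG hb)).1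
  have h2a : 2 ≤ (B ∪ P j).card := by
    have h1 : ({b, s} : Finset E) ⊆ B ∪ P j := by
      intro w hw
      rcases Finset.mem_insert.1 hw with rfl | hw
      · exact Finset.mem_union_left _ hb
      · rw [Finset.mem_singleton.1 hw]
        exact Finset.mem_union_right _ hs
    have h2 := Finset.card_le_card h1
    rw [Finset.card_pair (fun h : b = s => nW hs (h ▸ hbW))] at h2
    exact h2
  have nin : ∀ {k : Fin 5} {w : E}, k ≠ j → w ∈ P k → w ∉ B ∪ P j := by
    intro k w hk hw h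
    rcases Finset.mem_union.1 h with h | h
    · exact nW hw (Finset.mem_sdiff.1 (hBG h)).1
    · exact Finset.disjoint_left.1 (hF.dP k j hk) hw h
  have h2b : 2 ≤ (Pool.Agent.QU.gs p \ (B ∪ P j)).card := by
    have h1 : ({u, v} : Finset E) ⊆ Pool.Agent.QU.gs p \ (B ∪ P j) := by
      intro w hw
      rcases Finset.mem_insert.1 hw with rfl | hw
      · exact Finset.mem_sdiff.2 ⟨hPg x hu, nin hxj hu⟩
      · rw [Finset.mem_singleton.1 hw]
        exact Finset.mem_sdiff.2 ⟨hPg y hv, nin hyj hv⟩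
    have h2 := Finset.card_le_card h1
    rw [Finset.card_pair (fun h : u = v => Finset.disjoint_left.1 (hF.dP x y hxy) hu (h ▸ hv))] at h2
    exact h2
  have h5 := h3 (B ∪ P j) (Finset.union_subset hBg (hPg j)) h2a h2b
  have h5' : 2 ≤ r (p.1 ∪ (B ∪ P j)) + r (p.2 \ (B ∪ P j)) - r p.2 - r p.1 := h5
  rw [← hCdef, ← Finset.union_assoc] at h5'
  have h6 := hr.mono (p.2 \ (B ∪ P j)) ((C ∪ A) ∪ Qf P j) (by
    intro w hw
    obtain ⟨hw1, hw2⟩ := Finset.mem_sdiff.1 hw
    rw [Finset.mem_union, not_or] at hw2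
    rw [← hF.hU] at hw1
    rcases Finset.mem_union.1 hw1 with hw1 | hw1
    · by_cases hwC : w ∈ C
      · exact Finset.mem_union_left _ (Finset.mem_union_left _ hwC)
      · refine Finset.mem_union_left _ (Finset.mem_union_right _ ?_)
        have h7 : w ∈ A ∪ B := by rw [hAB]; exact Finset.mem_sdiff.2 ⟨hw1, hwC⟩
        exact (Finset.mem_union.1 h7).resolve_right hw2.1
    · obtain ⟨k, -, hk⟩ := Finset.mem_biUnion.1 hw1
      exact Finset.mem_union_right _ (mem_Qf.2 ⟨k, fun h => hw2.2 (h ▸ hk), hk⟩))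
  have h7 := hAs.2
  rw [← hB] at h7
  have h8 := hF.rW
  linarith

end Pool.Agent.QU
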