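import Pool.Agent.QUO.FanP
import Pool.Agent.QUO.FanS
import Pool.Agent.QUN.Nrm
import Pool.Agent.QUN.Dul
import Pool.Agent.QUN.Fg
import Pool.Agent.QUL.LRank
import Pool.Agent.QUL.LRk

/-!
# QUO/FanE: existence of fans over the field with four elements, Oxley's theorem

`fan_ex`: a minor `q = U_{2,5}` of `p` of full rank gives a fan with `W` the closure of `q.1`. `rich_three`: a 3-connected box of rank at least
three with a minor `U_{2,5}` has a minor `U_{3,5}`; `rich_two`: the dual.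
-/

set_option autoImplicit false

noncomputable section

open QUB Pool.Agent.FRM
open scoped Classical

namespace Pool.Agent.QU

private theorem fe_pig : ∀ a b c d : F4, a ≠ 0 → b ≠ 0 → c ≠ 0 → d ≠ 0 → a = b ∨ a = c ∨ a = d ∨ b = c ∨ b = d ∨ c = d := by
  decide +kernel

private theorem fe_oth : ∀ k : Fin 5, ∃ l : Fin 5, l ≠ k := by decide

variable {E : Type} [Fintype E] [DecidableEq E]

/-- no six points on a line -/
theorem no26 (S : TP F4 E) {p : Itv E} {W : Finset E} {a b : E} (ha : a ∈ p.2) (hrW : S.r p.2 ≤ S.r W + 2) (hW : W ⊆ p.2)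
    (hb : b ∈ p.2) (hab : S.r (insert a (insert b W)) = S.r W + 2) {y1 y2 y3 y4 : E} (h1 : y1 ∈ p.2) (h2 : y2 ∈ p.2) (h3 : y3 ∈ p.2)
    (h4 : y4 ∈ p.2) (pa : ∀ y ∈ ({y1, y2, y3, y4} : Finset E), S.r W + 2 ≤ S.r (insert y (insert a W)) ∧ S.r W + 2 ≤ S.r (insert y (insert b W)))
    (q12 : S.r W + 2 ≤ S.r (insert y1 (insert y2 W))) (q13 : S.r W + 2 ≤ S.r (insert y1 (insert y3 W)))
    (q14 : S.r W + 2 ≤ S.r (insert y1 (insert y4 W))) (q23 : S.r W + 2 ≤ S.r (insert y2 (insert y3 W)))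
    (q24 : S.r W + 2 ≤ S.r (insert y2 (insert y4 W))) (q34 : S.r W + 2 ≤ S.r (insert y3 (insert y4 W))) : False := by
  have hr := S.rk
  have u1 := hr.unit W a
  have u2 := hr.unit W b
  have u3 := hr.unit (insert b W) a
  have u4 := hr.unit (insert a W) b
  rw [Finset.insert_comm b a] at u4
  obtain ⟨c0, hc0, e0⟩ := S.van_one (C := insert b W) (x := a) (by omega)
  obtain ⟨c1, hc1, e1⟩ := S.van_one (C := insert a W) (x := b) (by rw [Finset.insert_comm b a]; omega)
  have mem : ∀ y ∈ ({y1, y2, y3, y4} : Finset E), y ∈ p.2 := by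
    intro y hy
    simp only [Finset.mem_insert, Finset.mem_singleton] at hy
    rcases hy with rfl | rfl | rfl | rfl <;> assumption
  have full : ∀ y z : E, y ∈ p.2 → z ∈ p.2 → S.r W + 2 ≤ S.r (insert y (insert z W)) → ∀ x ∈ p.2, ∀ c ∈ van S.U (insert y (insert z W)), c x = 0 := by
    intro y z hy hz hyz x hx
    refine S.van_eq_zero ?_
    have m1 := hr.mono (insert y (insert z W)) (insert x (insert y (insert z W))) (Finset.subset_insert _ _)
    have m2 := hr.mono (insert x (insert y (insert z W))) p.2 (Finset.insert_subset hx (Finset.insert_subset hy (Finset.insert_subset hz hW)))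
    omega
  have ins : ∀ {c : E → F4} {A : Finset E} {y : E}, c ∈ van S.U A → c y = 0 → c ∈ van S.U (insert y A) := by
    intro c A y hc h
    refine ⟨hc.1, fun x hx => ?_⟩
    rcases Finset.mem_insert.1 hx with rfl | hx
    · exact h
    · exact hc.2 x hx
  have z0 : ∀ y ∈ ({y1, y2, y3, y4} : Finset E), c0 y ≠ 0 := by
    intro y hy h
    have := full y b (mem y hy) hb (pa y hy).2 a ha c0 (ins hc0 h)
    rw [e0] at this
    exact one_ne_zero this
  have z1 : ∀ y ∈ ({y1, y2, y3, y4} : Finset E), c1 y ≠ 0 := by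
    intro y hy h
    have := full y a (mem y hy) ha (pa y hy).1 b hb c1 (ins hc1 h)
    rw [e1] at this
    exact one_ne_zero this
  have key : ∀ y ∈ ({y1, y2, y3, y4} : Finset E), ∀ z ∈ ({y1, y2, y3, y4} : Finset E), S.r W + 2 ≤ S.r (insert y (insert z W)) →
      c0 y / c1 y ≠ c0 z / c1 z := by
    intro y hy z hz hyz heq
    have hc0W : c0 ∈ van S.U W := van_anti (Finset.subset_insert _ _) hc0
    have hc1W : c1 ∈ van S.U W := van_anti (Finset.subset_insert _ _) hc1
    have hv : c1 y • c0 - c0 y • c1 ∈ van S.U W := (van S.U W).sub_mem ((van S.U W).smul_mem _ hc0W) ((van S.U W).smul_mem _ hc1W)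
    have vy : (c1 y • c0 - c0 y • c1) y = 0 := by
      simp only [Pi.sub_apply, Pi.smul_apply, smul_eq_mul]
      ring
    have vz : (c1 y • c0 - c0 y • c1) z = 0 := by
      rw [div_eq_div_iff (z1 y hy) (z1 z hz)] at heq
      simp only [Pi.sub_apply, Pi.smul_apply, smul_eq_mul]
      rw [heq]
      ring
    have va := full y z (mem y hy) (mem z hz) hyz a ha _ (ins (ins hv vz) vy)
    simp only [Pi.sub_apply, Pi.smul_apply, smul_eq_mul] at va
    have h0 : c1 a = 0 := hc1.2 a (Finset.mem_insert_self _ _)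
    rw [e0, h0, mul_one, mul_zero, sub_zero] at va
    exact z1 y hy va
  have m1 : y1 ∈ ({y1, y2, y3, y4} : Finset E) := by simp
  have m2 : y2 ∈ ({y1, y2, y3, y4} : Finset E) := by simp
  have m3 : y3 ∈ ({y1, y2, y3, y4} : Finset E) := by simp
  have m4 : y4 ∈ ({y1, y2, y3, y4} : Finset E) := by simp
  rcases fe_pig _ _ _ _ (div_ne_zero (z0 y1 m1) (z1 y1 m1)) (div_ne_zero (z0 y2 m2) (z1 y2 m2)) (div_ne_zero (z0 y3 m3) (z1 y3 m3))
    (div_ne_zero (z0 y4 m4) (z1 y4 m4)) with h | h | h | h | h | h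
  · exact key y1 m1 y2 m2 q12 h
  · exact key y1 m1 y3 m3 q13 h
  · exact key y1 m1 y4 m4 q14 h
  · exact key y2 m2 y3 m3 q23 h
  · exact key y2 m2 y4 m4 q24 h
  · exact key y3 m3 y4 m4 q34 h

/-- the fan of a minor `U_{2,5}` of full rank -/
theorem fan_ex (S : TP F4 E) {p q : Itv E} (hq : Sub q p) (hR : Rich S.r q) (h2 : S.r q.2 = S.r q.1 + 2) (hN : S.r q.2 = S.r p.2) :
    ∃ (W : Finset E) (P : Fin 5 → Finset E), Fan S.r p W P ∧ q.1 ⊆ W ∧ S.r W = S.r q.1 ∧
      (∀ x ∈ p.2, S.r (insert x W) = S.r W → x ∈ W) ∧ ∃ n : Fin 5 → E, Function.Injective n ∧ (∀ k, n k ∈ gs q) ∧ ∀ k, n k ∈ P k := by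
  have hr := S.rk
  obtain ⟨hq12, h5, hcase⟩ := hR
  have hpair : ∀ i ∈ gs q, ∀ j ∈ gs q, i ≠ j → S.r (q.1 ∪ {i, j}) = S.r q.1 + 2 := by
    rcases hcase with h | h
    · exact h.2
    · have := h.1
      omega
  -- the five elements
  obtain ⟨n, hinj, hn⟩ : ∃ n : Fin 5 → E, Function.Injective n ∧ ∀ k, n k ∈ gs q := by
    have e := (Finset.equivFinOfCardEq h5).symm
    exact ⟨fun k => (e k : E), fun a b h => e.injective (Subtype.ext h), fun k => (e k).2⟩
  set W := p.2.filter (fun x => S.r (insert x q.1) = S.r q.1) with hWdef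
  have hWp : W ⊆ p.2 := Finset.filter_subset _ _
  have hqp : q.2 ⊆ p.2 := hq.2
  have hqW : q.1 ⊆ W := by
    intro x hx
    exact Finset.mem_filter.2 ⟨hqp (hq12 hx), by rw [Finset.insert_eq_of_mem hx]⟩
  have rWle : S.r W ≤ S.r q.1 := by
    have h := fn_cl hr (C := q.1) W fun z hz => (Finset.mem_filter.1 hz).2.le
    exact (hr.mono _ _ Finset.subset_union_right).trans h
  have rW : S.r W = S.r q.1 := le_antisymm rWle (hr.mono _ _ hqW)
  have hclosed : ∀ x ∈ p.2, S.r (insert x W) = S.r W → x ∈ W := by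
    intro x hx h
    refine Finset.mem_filter.2 ⟨hx, ?_⟩
    have h1 := hr.mono (insert x q.1) (insert x W) (Finset.insert_subset_insert _ hqW)
    have h3 := hr.mono _ _ (Finset.subset_insert x q.1)
    omega
  have out : ∀ x ∈ p.2, x ∉ W → S.r (insert x W) = S.r W + 1 := by
    intro x hx hxW
    have h1 := hr.unit W x
    have h3 := hr.mono _ _ (Finset.subset_insert x W)
    by_contra hne
    exact hxW (hclosed x hx (by omega))
  have hnp : ∀ k, n k ∈ p.2 := fun k => hqp (Finset.mem_sdiff.1 (hn k)).1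
  have rp : S.r p.2 = S.r W + 2 := by omega
  have hnn : ∀ k l, k ≠ l → S.r (insert (n k) (insert (n l) W)) = S.r W + 2 := by
    intro k l hkl
    have h1 := hpair (n k) (hn k) (n l) (hn l) (fun h => hkl (hinj h))
    have h3 := hr.mono (q.1 ∪ {n k, n l}) (insert (n k) (insert (n l) W)) (by
      intro w hw
      simp only [Finset.mem_union, Finset.mem_insert, Finset.mem_singleton] at hw ⊢
      rcases hw with h | h | h
      · exact Or.inr (Or.inr (hqW h))
      · exact Or.inl h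
      · exact Or.inr (Or.inl h))
    have h4 := hr.mono (insert (n k) (insert (n l) W)) p.2 (Finset.insert_subset (hnp k) (Finset.insert_subset (hnp l) hWp))
    omega
  have hnW : ∀ k, n k ∉ W := by
    intro k hk
    obtain ⟨l, hl⟩ : ∃ l : Fin 5, l ≠ k := fe_oth k
    have h1 := hnn k l hl.symm
    rw [Finset.insert_comm, Finset.insert_eq_of_mem hk] at h1
    have := hr.unit W (n l)
    omega
  have rn : ∀ k, S.r (insert (n k) W) = S.r W + 1 := fun k => out _ (hnp k) (hnW k)
  set P : Fin 5 → Finset E := fun k => (p.2 \ W).filter (fun x => S.r (insert x (insert (n k) W)) ≤ S.r W + 1) with hP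
  have memP : ∀ {k : Fin 5} {x : E}, x ∈ P k ↔ (x ∈ p.2 ∧ x ∉ W) ∧ S.r (insert x (insert (n k) W)) ≤ S.r W + 1 := by
    intro k x
    rw [hP]
    simp only [Finset.mem_filter, Finset.mem_sdiff]
  have nP : ∀ k, n k ∈ P k := by
    intro k
    refine memP.2 ⟨⟨hnp k, hnW k⟩, ?_⟩
    rw [Finset.insert_eq_of_mem (Finset.mem_insert_self _ _)]
    exact (rn k).le
  have two : ∀ k l, k ≠ l → ∀ s ∈ P k, ∀ s' ∈ P l, S.r (insert s (insert s' W)) = S.r W + 2 := by
    intro k l hkl s hs s' hs'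
    obtain ⟨⟨s1, s2⟩, s3⟩ := memP.1 hs
    obtain ⟨⟨t1, t2⟩, t3⟩ := memP.1 hs'
    have up := hr.mono (insert s (insert s' W)) p.2 (Finset.insert_subset s1 (Finset.insert_subset t1 hWp))
    by_contra hne
    have lo : S.r (insert s (insert s' W)) ≤ S.r W + 1 := by omega
    have rs := out s s1 s2
    have rt := out s' t1 t2
    have c1 := fn_cl hr (C := insert s W) {s', n k} (by
      intro z hz
      rcases Finset.mem_insert.1 hz with rfl | hz
      · rw [Finset.insert_comm]
        omega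
      · rw [Finset.mem_singleton.1 hz, Finset.insert_comm]
        omega)
    have m1 := marg hr (show insert s' W ⊆ insert s W ∪ {s', n k} from by
      intro w hw
      rcases Finset.mem_insert.1 hw with rfl | hw
      · exact Finset.mem_union_right _ (Finset.mem_insert_self _ _)
      · exact Finset.mem_union_left _ (Finset.mem_insert_of_mem hw)) (n l)
    have c2 : S.r (insert (n l) (insert s' W)) ≤ S.r (insert s' W) := by
      rw [Finset.insert_comm]
      omega
    have m2 := hr.mono (insert (n k) (insert (n l) W)) (insert (n l) (insert s W ∪ {s', n k})) (by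
      intro w hw
      simp only [Finset.mem_union, Finset.mem_insert, Finset.mem_singleton] at hw ⊢
      tauto)
    have m3 := hnn k l hkl
    omega
  have five : ∀ x ∈ p.2, x ∉ W → ∃ k, x ∈ P k := by
    intro x hx hxW
    by_contra hcon
    push Not at hcon
    have far : ∀ k, S.r W + 2 ≤ S.r (insert x (insert (n k) W)) := by
      intro k
      by_contra h
      exact hcon k (memP.2 ⟨⟨hx, hxW⟩, by omega⟩)
    refine no26 S (p := p) (W := W) (a := n 0) (b := n 1) (hnp 0) rp.le hWp (hnp 1) (hnn 0 1 (by decide)) hx (hnp 2) (hnp 3) (hnp 4) ?_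
      (far 2) (far 3) (far 4) (hnn 2 3 (by decide)).ge (hnn 2 4 (by decide)).ge (hnn 3 4 (by decide)).ge
    intro y hy
    simp only [Finset.mem_insert, Finset.mem_singleton] at hy
    rcases hy with rfl | rfl | rfl | rfl
    · exact ⟨far 0, far 1⟩
    · exact ⟨(hnn 2 0 (by decide)).ge, (hnn 2 1 (by decide)).ge⟩
    · exact ⟨(hnn 3 0 (by decide)).ge, (hnn 3 1 (by decide)).ge⟩
    · exact ⟨(hnn 4 0 (by decide)).ge, (hnn 4 1 (by decide)).ge⟩
  refine ⟨W, P, ⟨hq.1.trans hqW, ?_, ?_, ?_, fun k => ⟨n k, nP k⟩, rp, ?_, two⟩, hqW, rW, hclosed, n, hinj, hn, nP⟩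
  · ext w
    simp only [Finset.mem_union, Finset.mem_biUnion, Finset.mem_univ, true_and]
    constructor
    · rintro (h | ⟨k, hk⟩)
      · exact hWp h
      · exact (memP.1 hk).1.1
    · intro h
      by_cases hw : w ∈ W
      · exact Or.inl hw
      · exact Or.inr (five w h hw)
  · intro k
    rw [Finset.disjoint_left]
    intro w hw
    exact (memP.1 hw).1.2
  · intro k l hkl
    rw [Finset.disjoint_left]
    intro w hw hw'
    have h1 := two k l hkl w hw w hw'
    rw [Finset.insert_eq_of_mem (Finset.mem_insert_self _ _)] at h1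
    have := hr.unit W w
    omega
  · intro k
    have h1 := fn_cl hr (C := insert (n k) W) (P k) (by
      intro z hz
      have := (memP.1 hz).2
      have := rn k
      omega)
    have h3 := hr.mono (insert (n k) W) (W ∪ P k) (Finset.insert_subset (Finset.mem_union_right _ (nP k)) Finset.subset_union_left)
    have h4 := hr.mono (W ∪ P k) (insert (n k) W ∪ P k) (Finset.union_subset_union_left (Finset.subset_insert _ _))
    have := rn k
    omega

/-- Oxley: a 3-connected box of rank at least three with a minor `U_{2,5}` has a minor `U_{3,5}` -/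
theorem rich_three (S : TP F4 E) {p : Itv E} (h3 : Th3 S.r p) (hr3 : S.r p.1 + 3 ≤ S.r p.2)
    (h : ∃ q, Sub q p ∧ Rich S.r q ∧ S.r q.2 = S.r q.1 + 2) : ∃ q, Sub q p ∧ Rich S.r q ∧ S.r q.2 = S.r q.1 + 3 := by
  obtain ⟨q0, hq0, hR0, h20⟩ := h
  obtain ⟨q, hq, hqq, hs, hN, -⟩ := nrm_exists S hq0 hR0.1
  have hR : Rich S.r q := same_rich hqq hs hR0
  have h2 : S.r q.2 = S.r q.1 + 2 := by
    have e : S.r (q.1 ∪ gs q) - S.r q.1 = S.r (q0.1 ∪ gs q0) - S.r q0.1 := by
      have h1 := hs.2 (gs q0) (Finset.Subset.refl _)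
      have h4 : Pool.Agent.QU.gs q = gs q0 := hs.1
      have h5 : gs q = gs q0 := h4
      rw [h5]
      exact h1
    rw [show q.1 ∪ gs q = q.2 from Finset.union_sdiff_of_subset hqq, show q0.1 ∪ gs q0 = q0.2 from Finset.union_sdiff_of_subset hR0.1] at e
    omega
  by_contra hcon
  push Not at hcon
  obtain ⟨W, P, hF, hqW, hrW, -, -⟩ := fan_ex S hq hR h2 hN.2
  refine fan_false S.rk h3 hF (fun A hA1 hA hAr => fan_pl S.rk hF (fun q hq hR h => hcon q hq hR h) hA1 hA hAr) ?_
  rw [Finset.nonempty_iff_ne_empty]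
  intro h0
  have h1 : W ⊆ p.1 := Finset.sdiff_eq_empty_iff_subset.1 h0
  have h4 := S.rk.mono _ _ h1
  have h5 := hF.rW
  omega

theorem dual_diff (S : TP F4 E) {q : Itv E} (hq : q.1 ⊆ q.2) :
    S.dual.r (QUB.dp q).2 - S.dual.r (QUB.dp q).1 = (gs q).card - (S.r q.2 - S.r q.1) := by
  have h1 : S.dual.r (QUB.dp q).2 = (q.1ᶜ.card : ℤ) + S.r q.1ᶜᶜ - S.r Finset.univ := rfl
  have h2 : S.dual.r (QUB.dp q).1 = (q.2ᶜ.card : ℤ) + S.r q.2ᶜᶜ - S.r Finset.univ := rfl
  have h3 := Finset.card_add_card_compl q.1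
  have h4 := Finset.card_add_card_compl q.2
  have h5 : (gs q).card + q.1.card = q.2.card := Finset.card_sdiff_add_card_eq_card hq
  rw [h1, h2, compl_compl, compl_compl]
  omega

/-- Oxley: a 3-connected box of corank at least three with a minor `U_{3,5}` has a minor `U_{2,5}` -/
theorem rich_two (S : TP F4 E) {p : Itv E} (hp : p.1 ⊆ p.2) (h3 : Th3 S.r p) (hr3 : S.r p.2 - S.r p.1 + 3 ≤ (gs p).card)
    (h : ∃ q, Sub q p ∧ Rich S.r q ∧ S.r q.2 = S.r q.1 + 3) : ∃ q, Sub q p ∧ Rich S.r q ∧ S.r q.2 = S.r q.1 + 2 := by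
  obtain ⟨q, hq, hR, h2⟩ := h
  have hd := dual_diff S hp
  have hdq := dual_diff S hR.1
  have h5 : (gs q).card = 5 := hR.2.1
  obtain ⟨q', k1, k2, k3⟩ := rich_three S.dual (p := QUB.dp p) (th3_dual S hp h3) (by omega)
    ⟨QUB.dp q, ⟨Finset.compl_subset_compl.2 hq.2, Finset.compl_subset_compl.2 hq.1⟩, rich_dual S hR, by omega⟩
  have hd2 := dual_diff S.dual (q := q') k2.1
  have h6 : (gs q').card = 5 := k2.2.1
  have k4 := rich_dual S.dual k2
  have k5 : Sub (QUB.dp q') p := by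
    refine ⟨?_, ?_⟩
    · intro x hx
      exact Finset.mem_compl.2 fun h => (Finset.mem_compl.1 (k1.2 h)) hx
    · intro x hx
      by_contra h
      exact (Finset.mem_compl.1 hx) (k1.1 (Finset.mem_compl.2 h))
  have e : ∀ A, S.dual.dual.r A = S.r A := by
    intro A
    have a1 : S.dual.dual.r A = (A.card : ℤ) + ((Aᶜ.card : ℤ) + S.r Aᶜᶜ - S.r Finset.univ) -
        ((Finset.univ.card : ℤ) + S.r Finset.univᶜ - S.r Finset.univ) := rfl
    have a2 := Finset.card_add_card_compl A
    rw [a1, compl_compl, Finset.compl_univ, S.r_empty, Finset.card_univ]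
    omega
  have b1 := e (QUB.dp q').2
  have b2 := e (QUB.dp q').1
  have k6 : Rich S.r (QUB.dp q') := by
    have : S.dual.dual.r = S.r := funext e
    rw [this] at k4
    exact k4
  exact ⟨QUB.dp q', k5, k6, by omega⟩

/-- a rich 3-connected box of corank at least three has a minor `U_{2,5}` of full rank and with independent contraction set -/
theorem u25_ex (S : TP F4 E) {p : Itv E} (hp : p.1 ⊆ p.2) (h3 : Th3 S.r p) (hr3 : S.r p.2 - S.r p.1 + 3 ≤ (gs p).card)
    (hR : HasRich S.r p) : ∃ q, Sub q p ∧ Rich S.r q ∧ S.r q.2 = S.r q.1 + 2 ∧ Nrm S.r p q := by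
  obtain ⟨q0, hq0, hR0, h20⟩ : ∃ q, Sub q p ∧ Rich S.r q ∧ S.r q.2 = S.r q.1 + 2 := by
    obtain ⟨q, hq, hRq⟩ := hR
    rcases hRq.2.2 with h | h
    · exact ⟨q, hq, hRq, h.1⟩
    · exact rich_two S hp h3 hr3 ⟨q, hq, hRq, h.1⟩
  obtain ⟨q, hq, hqq, hs, hN, -⟩ := nrm_exists S hq0 hR0.1
  refine ⟨q, hq, same_rich hqq hs hR0, ?_, hN⟩
  have e : S.r (q.1 ∪ gs q) - S.r q.1 = S.r (q0.1 ∪ gs q0) - S.r q0.1 := by
    have h1 := hs.2 (gs q0) (Finset.Subset.refl _)
    have h4 : Pool.Agent.QU.gs q = gs q0 := hs.1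
    have h5 : gs q = gs q0 := h4
    rw [h5]
    exact h1
  rw [show q.1 ∪ gs q = q.2 from Finset.union_sdiff_of_subset hqq, show q0.1 ∪ gs q0 = q0.2 from Finset.union_sdiff_of_subset hR0.1] at e
  omega

end Pool.Agent.QU
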