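import Pool.Agent.QUO.Fan

/-!
# QUO/FanP: the plane lemma for fans

`fan_pl`: if `p` has no minor `U_{3,5}`, then for every set `A` between `p.1` and `W` of rank `r W - 1` four of the classes are on a line of `p / A`.
-/

set_option autoImplicit false

open QUB

namespace Pool.Agent.QU

variable {E : Type} [DecidableEq E] {r : Finset E → ℤ} {p : Itv E} {W : Finset E} {P : Fin 5 → Finset E}

/-- two elements on a line contained in another line -/
private theorem fp_tri {A : Finset E} (hr : Rk r) {a b c d : E} (hab : r A + 2 ≤ r (A ∪ {a, b})) (h1 : r (A ∪ {a, b, c}) ≤ r A + 2)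
    (h2 : r (A ∪ {a, b, d}) ≤ r A + 2) : r (A ∪ {a, b, c, d}) ≤ r A + 2 := by
  have h := fn_glue hr hab h1 h2 (by simp) (by simp) (by simp) (by simp)
  have e : A ∪ ({a, b, c} ∪ {a, b, d}) = A ∪ {a, b, c, d} := by
    ext w
    simp only [Finset.mem_union, Finset.mem_insert, Finset.mem_singleton]
    tauto
  rwa [e] at h

private theorem fp_le {A : Finset E} (hr : Rk r) {X Y : Finset E} (hX : X ⊆ Y) (hY : r (A ∪ Y) ≤ r A + 2) : r (A ∪ X) ≤ r A + 2 :=
  (hr.mono _ _ (Finset.union_subset_union_right hX)).trans hY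

/-- four elements of a transversal are on a line -/
private theorem fp_four (hr : Rk r) (hF : Fan r p W P) (hno : ∀ q : Itv E, Sub q p → Rich r q → r q.2 ≠ r q.1 + 3) {A : Finset E}
    (hA1 : p.1 ⊆ A) (hA : A ⊆ W) (hAr : r A + 1 = r W) {s : Fin 5 → E} (hs : ∀ k, s k ∈ P k) {i j k l m : Fin 5} (hij : i ≠ j)
    (hik : i ≠ k) (hjk : j ≠ k) (hli : l ≠ i) (hlj : l ≠ j) (hlk : l ≠ k) (hmi : m ≠ i) (hmj : m ≠ j) (hmk : m ≠ k) (hlm : l ≠ m)
    (h : r (A ∪ {s i, s j, s k}) ≤ r A + 2) : r (A ∪ {s i, s j, s k, s l}) ≤ r A + 2 ∨ r (A ∪ {s i, s j, s k, s m}) ≤ r A + 2 := by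
  by_contra hcon
  rw [not_or] at hcon
  obtain ⟨n1, n2⟩ := hcon
  have pr : ∀ a b : Fin 5, a ≠ b → r A + 2 ≤ r (A ∪ {s a, s b}) := fun a b hab => hF.pr hr hA hab (hs a) (hs b)
  -- the three lines through pairs of `i, j, k` are the same
  have hijk := h
  have hikj : r (A ∪ {s i, s k, s j}) ≤ r A + 2 := fp_le hr (by
    intro w
    simp only [Finset.mem_insert, Finset.mem_singleton]
    tauto) h
  have hjki : r (A ∪ {s j, s k, s i}) ≤ r A + 2 := fp_le hr (by
    intro w
    simp only [Finset.mem_insert, Finset.mem_singleton]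
    tauto) h
  have off : ∀ {a b c : E} (n : Fin 5), r A + 2 ≤ r (A ∪ {a, b}) → r (A ∪ {a, b, c}) ≤ r A + 2 →
      ({s i, s j, s k, s n} : Finset E) ⊆ {a, b, c, s n} → ¬ r (A ∪ {s i, s j, s k, s n}) ≤ r A + 2 → r A + 3 ≤ r (A ∪ {a, b, s n}) := by
    intro a b c n hab habc hsub hn
    by_contra h3
    refine hn (fp_le hr hsub (fp_tri hr hab habc ?_))
    omega
  have ijl := off l (pr i j hij) hijk (Finset.Subset.refl _) n1
  have ijm := off m (pr i j hij) hijk (Finset.Subset.refl _) n2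
  have ikl := off l (pr i k hik) hikj (by
    intro w
    simp only [Finset.mem_insert, Finset.mem_singleton]
    tauto) n1
  have ikm := off m (pr i k hik) hikj (by
    intro w
    simp only [Finset.mem_insert, Finset.mem_singleton]
    tauto) n2
  have jkl := off l (pr j k hjk) hjki (by
    intro w
    simp only [Finset.mem_insert, Finset.mem_singleton]
    tauto) n1
  have jkm := off m (pr j k hjk) hjki (by
    intro w
    simp only [Finset.mem_insert, Finset.mem_singleton]
    tauto) n2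
  -- a point of `W` outside of the closure of `A`
  obtain ⟨c, hcW, hc⟩ : ∃ c ∈ W, r A + 1 ≤ r (insert c A) := by
    by_contra hcon
    push Not at hcon
    have h1 := fn_cl hr (C := A) W fun z hz => by
      have := hcon z hz
      omega
    have h2 := hr.mono W (A ∪ W) Finset.subset_union_right
    omega
  have hcA : insert c A ⊆ W := Finset.insert_subset hcW hA
  have cpr : ∀ a b : Fin 5, a ≠ b → r A + 3 ≤ r (A ∪ {c, s a, s b}) := by
    intro a b hab
    have h1 := hF.pr hr hcA hab (hs a) (hs b)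
    have e : insert c A ∪ {s a, s b} = A ∪ {c, s a, s b} := by
      ext w
      simp only [Finset.mem_union, Finset.mem_insert, Finset.mem_singleton]
      tauto
    rw [e] at h1
    linarith
  have hA2 : A ⊆ p.2 := hA.trans hF.hW2
  have h3 : r p.2 ≤ r A + 3 := by
    have := hF.rW
    omega
  -- an arc with `c`
  have arc : ∀ a b : Fin 5, a ≠ b → a ≠ l → a ≠ m → b ≠ l → b ≠ m → r A + 3 ≤ r (A ∪ {s a, s b, s l}) → r A + 3 ≤ r (A ∪ {s a, s b, s m}) →
      r A + 3 ≤ r (A ∪ {s a, s l, s m}) → r A + 3 ≤ r (A ∪ {s b, s l, s m}) → False := by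
    intro a b hab hal ham hbl hbm t1 t2 t3 t4
    obtain ⟨q, hq, hR, hqr⟩ := arc10 (p := p) hr hA1 hA2 h3 ![c, s a, s b, s l, s m] (by
      intro n
      fin_cases n
      · exact hF.hW2 hcW
      · exact hF.hP2 a (hs a)
      · exact hF.hP2 b (hs b)
      · exact hF.hP2 l (hs l)
      · exact hF.hP2 m (hs m)) (cpr a b hab) (cpr a l hal) (cpr a m ham) (cpr b l hbl) (cpr b m hbm) (cpr l m hlm) t1 t2 t3 t4
    exact hno q hq hR hqr
  have lin : ∀ a b : Fin 5, r A + 3 ≤ r (A ∪ {s a, s b, s l}) → r (A ∪ {s a, s l, s m}) ≤ r A + 2 →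
      r (A ∪ {s b, s l, s m}) ≤ r A + 2 → False := by
    intro a b t1 t2 t3
    have u1 : r (A ∪ {s l, s m, s a}) ≤ r A + 2 := fp_le hr (by
      intro w
      simp only [Finset.mem_insert, Finset.mem_singleton]
      tauto) t2
    have u2 : r (A ∪ {s l, s m, s b}) ≤ r A + 2 := fp_le hr (by
      intro w
      simp only [Finset.mem_insert, Finset.mem_singleton]
      tauto) t3
    have u3 := fp_tri hr (pr l m hlm) u1 u2
    have u4 : r (A ∪ {s a, s b, s l}) ≤ r A + 2 := fp_le hr (by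
      intro w
      simp only [Finset.mem_insert, Finset.mem_singleton]
      tauto) u3
    omega
  by_cases ci : r (A ∪ {s i, s l, s m}) ≤ r A + 2
  · by_cases cj : r (A ∪ {s j, s l, s m}) ≤ r A + 2
    · exact lin i j ijl ci cj
    · by_cases ck : r (A ∪ {s k, s l, s m}) ≤ r A + 2
      · exact lin i k ikl ci ck
      · exact arc j k hjk hlj.symm hmj.symm hlk.symm hmk.symm jkl jkm (by omega) (by omega)
  · by_cases cj : r (A ∪ {s j, s l, s m}) ≤ r A + 2
    · by_cases ck : r (A ∪ {s k, s l, s m}) ≤ r A + 2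
      · exact lin j k jkl cj ck
      · exact arc i k hik hli.symm hmi.symm hlk.symm hmk.symm ikl ikm (by omega) (by omega)
    · exact arc i j hij hli.symm hmi.symm hlj.symm hmj.symm ijl ijm (by omega) (by omega)

private theorem fp_img {s : Fin 5 → E} {i j k l m : Fin 5} (h : ∀ x : Fin 5, x = i ∨ x = j ∨ x = k ∨ x = l ∨ x = m) :
    (Finset.univ.erase m).image s ⊆ {s i, s j, s k, s l} := by
  intro w hw
  obtain ⟨x, hx, rfl⟩ := Finset.mem_image.1 hw
  have hxm := (Finset.mem_erase.1 hx).1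
  simp only [Finset.mem_insert, Finset.mem_singleton]
  rcases h x with rfl | rfl | rfl | rfl | rfl
  · exact Or.inl rfl
  · exact Or.inr (Or.inl rfl)
  · exact Or.inr (Or.inr (Or.inl rfl))
  · exact Or.inr (Or.inr (Or.inr rfl))
  · exact absurd rfl hxm

private theorem fp_oth : ∀ i j k : Fin 5, i ≠ j → i ≠ k → j ≠ k → ∃ l m : Fin 5, l ≠ i ∧ l ≠ j ∧ l ≠ k ∧ m ≠ i ∧ m ≠ j ∧ m ≠ k ∧ l ≠ m ∧
    ∀ x, x = i ∨ x = j ∨ x = k ∨ x = l ∨ x = m := by
  decide

/-- every transversal has four elements on a line -/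
private theorem fp_trv (hr : Rk r) (hF : Fan r p W P) (hno : ∀ q : Itv E, Sub q p → Rich r q → r q.2 ≠ r q.1 + 3) {A : Finset E}
    (hA1 : p.1 ⊆ A) (hA : A ⊆ W) (hAr : r A + 1 = r W) {s : Fin 5 → E} (hs : ∀ k, s k ∈ P k) :
    ∃ n : Fin 5, r (A ∪ (Finset.univ.erase n).image s) ≤ r A + 2 := by
  by_contra hcon
  push Not at hcon
  have hall : ∀ i j k : Fin 5, i ≠ j → i ≠ k → j ≠ k → r A + 3 ≤ r (A ∪ {s i, s j, s k}) := by
    intro i j k hij hik hjk
    by_contra h
    obtain ⟨l, m, hli, hlj, hlk, hmi, hmj, hmk, hlm, hx⟩ := fp_oth i j k hij hik hjk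
    rcases fp_four hr hF hno hA1 hA hAr hs hij hik hjk hli hlj hlk hmi hmj hmk hlm (by omega) with h1 | h1
    · have := hcon m
      have h2 := hr.mono _ _ (Finset.union_subset_union_right (fp_img (s := s) hx) : A ∪ (Finset.univ.erase m).image s ⊆ _)
      omega
    · have := hcon l
      have h2 := hr.mono _ _ (Finset.union_subset_union_right (fp_img (s := s) (i := i) (j := j) (k := k) (l := m) (m := l) (fun x => by
        rcases hx x with h | h | h | h | h
        · exact Or.inl h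
        · exact Or.inr (Or.inl h)
        · exact Or.inr (Or.inr (Or.inl h))
        · exact Or.inr (Or.inr (Or.inr (Or.inr h)))
        · exact Or.inr (Or.inr (Or.inr (Or.inl h))))) : A ∪ (Finset.univ.erase l).image s ⊆ _)
      omega
  obtain ⟨q, hq, hR, hqr⟩ := arcF (p := p) hr hA1 (hA.trans hF.hW2) (by have := hF.rW; omega) s (fun i => hF.hP2 i (hs i)) hall
  exact hno q hq hR hqr

private theorem fp_two : ∀ x y z : Fin 5, ∃ a b : Fin 5, a ≠ b ∧ a ≠ x ∧ a ≠ y ∧ a ≠ z ∧ b ≠ x ∧ b ≠ y ∧ b ≠ z := by decide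

/-- the plane lemma -/
theorem fan_pl (hr : Rk r) (hF : Fan r p W P) (hno : ∀ q : Itv E, Sub q p → Rich r q → r q.2 ≠ r q.1 + 3) {A : Finset E}
    (hA1 : p.1 ⊆ A) (hA : A ⊆ W) (hAr : r A + 1 = r W) : ∃ j, r (A ∪ Qf P j) ≤ r A + 2 := by
  by_contra hng
  push Not at hng
  obtain ⟨s, hs⟩ : ∃ s : Fin 5 → E, ∀ k, s k ∈ P k := ⟨fun k => (hF.ne k).choose, fun k => (hF.ne k).choose_spec⟩
  have pr : ∀ a b : Fin 5, a ≠ b → r A + 2 ≤ r (A ∪ {s a, s b}) := fun a b hab => hF.pr hr hA hab (hs a) (hs b)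
  -- if all elements of four classes are on the line of a set `X` with a pair, the classes are on a line
  have big : ∀ (j : Fin 5) (X : Finset E) (a b : Fin 5), a ≠ b → s a ∈ X → s b ∈ X → r (A ∪ X) ≤ r A + 2 →
      (∀ t ∈ Qf P j, r (A ∪ insert t X) ≤ r A + 2) → False := by
    intro j X a b hab haX hbX hX h
    have h1 := pr a b hab
    have h2 := hr.mono (A ∪ {s a, s b}) (A ∪ X) (Finset.union_subset_union_right (by
      intro w hw
      simp only [Finset.mem_insert, Finset.mem_singleton] at hw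
      rcases hw with rfl | rfl <;> assumption))
    have h3 := fn_cl hr (C := A ∪ X) (Qf P j) fun z hz => by
      have h4 := h z hz
      rw [Finset.union_insert] at h4
      omega
    have h5 := hr.mono (A ∪ Qf P j) (A ∪ X ∪ Qf P j) (Finset.union_subset_union_left Finset.subset_union_left)
    have h6 := hng j
    omega
  obtain ⟨n, hn⟩ := fp_trv hr hF hno hA1 hA hAr hs
  set X := (Finset.univ.erase n).image s with hX
  have memX : ∀ a : Fin 5, a ≠ n → s a ∈ X := fun a ha => Finset.mem_image_of_mem s (Finset.mem_erase.2 ⟨ha, Finset.mem_univ a⟩)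
  obtain ⟨a0, b0, hab0, han0, -, -, hbn0, -, -⟩ := fp_two n n n
  obtain ⟨t, htQ, ht⟩ : ∃ t ∈ Qf P n, ¬ r (A ∪ insert t X) ≤ r A + 2 := by
    by_contra hcon
    push Not at hcon
    exact big n X a0 b0 hab0 (memX a0 han0) (memX b0 hbn0) hn hcon
  obtain ⟨k, hkn, htk⟩ := mem_Qf.1 htQ
  -- the transversal with `t`
  have hs1 : ∀ i, Function.update s k t i ∈ P i := by
    intro i
    by_cases hi : i = k
    · subst hi
      rw [Function.update_self]
      exact htk
    · rw [Function.update_of_ne hi]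
      exact hs i
  obtain ⟨n1, hn1⟩ := fp_trv hr hF hno hA1 hA hAr hs1
  set Y := (Finset.univ.erase n1).image (Function.update s k t) with hY
  have memY : ∀ a : Fin 5, a ≠ n1 → a ≠ k → s a ∈ Y := fun a ha hak =>
    Finset.mem_image.2 ⟨a, Finset.mem_erase.2 ⟨ha, Finset.mem_univ a⟩, Function.update_of_ne hak _ _⟩
  obtain ⟨a1, b1, hab1, u1, u2, u3, u4, u5, u6⟩ := fp_two n k n1
  have g1 := fn_glue hr (pr a1 b1 hab1) hn hn1 (memX a1 u1) (memX b1 u4) (memY a1 u3 u2) (memY b1 u6 u5)
  have hkn1 : k = n1 := by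
    by_contra hne
    refine ht (fp_le hr ?_ g1)
    refine Finset.insert_subset (Finset.mem_union_right _ ?_) Finset.subset_union_left
    exact Finset.mem_image.2 ⟨k, Finset.mem_erase.2 ⟨hne, Finset.mem_univ k⟩, Function.update_self _ _ _⟩
  have hsnY : s n ∈ Y := memY n (hkn1 ▸ hkn.symm) hkn.symm
  -- all elements of `s` on the line
  have hZ : r (A ∪ insert (s n) X) ≤ r A + 2 :=
    fp_le hr (Finset.insert_subset (Finset.mem_union_right _ hsnY) Finset.subset_union_left) g1
  have memZ : ∀ a : Fin 5, s a ∈ insert (s n) X := by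
    intro a
    by_cases ha : a = n
    · rw [ha]
      exact Finset.mem_insert_self _ _
    · exact Finset.mem_insert_of_mem (memX a ha)
  refine big k (insert (s n) X) a0 b0 hab0 (memZ a0) (memZ b0) hZ ?_
  intro t' ht'
  obtain ⟨m, hmk, htm⟩ := mem_Qf.1 ht'
  have hs2 : ∀ i, Function.update (Function.update s k t) m t' i ∈ P i := by
    intro i
    by_cases hi : i = m
    · subst hi
      rw [Function.update_self]
      exact htm
    · rw [Function.update_of_ne hi]
      exact hs1 i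
  obtain ⟨n2, hn2⟩ := fp_trv hr hF hno hA1 hA hAr hs2
  obtain ⟨a2, b2, hab2, v1, v2, v3, v4, v5, v6⟩ := fp_two k m n2
  have memV : ∀ a : Fin 5, a ≠ n2 → a ≠ k → a ≠ m → s a ∈ (Finset.univ.erase n2).image (Function.update (Function.update s k t) m t') :=
    fun a ha hak ham => Finset.mem_image.2 ⟨a, Finset.mem_erase.2 ⟨ha, Finset.mem_univ a⟩, by
      rw [Function.update_of_ne ham, Function.update_of_ne hak]⟩
  have g2 := fn_glue hr (pr a2 b2 hab2) hZ hn2 (memZ a2) (memZ b2) (memV a2 v3 v1 v2) (memV b2 v6 v4 v5)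
  have hn2k : n2 = k := by
    by_contra hne
    refine ht (fp_le hr ?_ g2)
    refine Finset.insert_subset (Finset.mem_union_right _ ?_) ((Finset.subset_insert _ _).trans Finset.subset_union_left)
    exact Finset.mem_image.2 ⟨k, Finset.mem_erase.2 ⟨Ne.symm hne, Finset.mem_univ k⟩, by
      rw [Function.update_of_ne hmk.symm, Function.update_self]⟩
  refine fp_le hr ?_ g2
  refine Finset.insert_subset (Finset.mem_union_right _ ?_) Finset.subset_union_left
  exact Finset.mem_image.2 ⟨m, Finset.mem_erase.2 ⟨by rw [hn2k]; exact hmk, Finset.mem_univ m⟩, Function.update_self _ _ _⟩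

end Pool.Agent.QU
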