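import Pool.Agent.QUO.FanE

/-!
# QUO/RichOne: a rich 3-connected box of rank at least three with a triangle stays rich if some element of the triangle is deleted
-/

set_option autoImplicit false

noncomputable section

open QUB Pool.Agent.FRM
open scoped Classical

namespace Pool.Agent.QU

variable {E : Type} [Fintype E] [DecidableEq E]

private theorem ro_up {r : Finset E → ℤ} (hr : Rk r) {B C : Finset E} (h : B ⊆ C) : r C ≤ r B + (C \ B).card := by
  have : ∀ D : Finset E, r (B ∪ D) ≤ r B + D.card := by
    intro D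
    induction D using Finset.induction_on with
    | empty => simp
    | insert a D ha ih =>
      have b1 := hr.unit (B ∪ D) a
      rw [Finset.union_insert, Finset.card_insert_of_notMem ha]
      push_cast
      linarith
  have b2 := this (C \ B)
  rwa [Finset.union_sdiff_of_subset h] at b2

/-- an element of the triangle is not in a rich minor of rank three of full rank -/
theorem rich_out (S : TP F4 E) {p q : Itv E} (hq : Sub q p) (hR : Rich S.r q) (h3 : S.r q.2 = S.r q.1 + 3)
    (hN : Nrm S.r p q) {x y z : E} (hx : x ∈ gs p) (hy : y ∈ gs p) (hz : z ∈ gs p) (hxy : x ≠ y) (hxz : x ≠ z) (hyz : y ≠ z)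
    (hL : S.r (insert x (insert y (insert z p.1))) ≤ S.r p.1 + 2) : x ∉ q.2 ∨ y ∉ q.2 ∨ z ∉ q.2 := by
  have hr := S.rk
  by_contra hcon
  push Not at hcon
  obtain ⟨hx2, hy2, hz2⟩ := hcon
  have htri : ∀ i ∈ gs q, ∀ j ∈ gs q, ∀ k ∈ gs q, i ≠ j → i ≠ k → j ≠ k → S.r (q.1 ∪ {i, j, k}) = S.r q.1 + 3 := by
    rcases hR.2.2 with h | h
    · have := h.1
      omega
    · exact h.2
  have h5 : (gs q).card = 5 := hR.2.1
  have xp : x ∉ p.1 := (Finset.mem_sdiff.1 hx).2
  have yp : y ∉ p.1 := (Finset.mem_sdiff.1 hy).2
  have zp : z ∉ p.1 := (Finset.mem_sdiff.1 hz).2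
  -- the rank of the triangle over `q.1`
  have low : ∀ A : Finset E, p.1 ⊆ A → S.r (insert x (insert y (insert z A))) ≤ S.r A + 2 := by
    intro A hA
    have h1 := fn_mg hr {x, y, z} hA
    have e1 : A ∪ {x, y, z} = insert x (insert y (insert z A)) := by
      ext w
      simp only [Finset.mem_union, Finset.mem_insert, Finset.mem_singleton]
      tauto
    have e2 : p.1 ∪ {x, y, z} = insert x (insert y (insert z p.1)) := by
      ext w
      simp only [Finset.mem_union, Finset.mem_insert, Finset.mem_singleton]
      tauto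
    rw [e1, e2] at h1
    linarith
  -- a pair in `gs q`
  have pr : ∀ i ∈ gs q, ∀ j ∈ gs q, i ≠ j → S.r q.1 + 2 ≤ S.r (insert i (insert j q.1)) := by
    intro i hi j hj hij
    obtain ⟨k, hk⟩ : ((gs q).erase i).erase j |>.Nonempty := by
      rw [← Finset.card_pos, Finset.card_erase_of_mem (Finset.mem_erase.2 ⟨hij.symm, hj⟩), Finset.card_erase_of_mem hi]
      omega
    have k1 := Finset.mem_erase.1 hk
    have k2 := Finset.mem_erase.1 k1.2
    have h1 := htri i hi j hj k k2.2 hij k2.1.symm k1.1.symm
    have h2 := hr.unit (insert i (insert j q.1)) k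
    have e : q.1 ∪ {i, j, k} = insert k (insert i (insert j q.1)) := by
      ext w
      simp only [Finset.mem_union, Finset.mem_insert, Finset.mem_singleton]
      tauto
    rw [e] at h1
    linarith
  have one : ∀ i ∈ gs q, S.r q.1 + 1 ≤ S.r (insert i q.1) := by
    intro i hi
    obtain ⟨j, hj⟩ : ((gs q).erase i).Nonempty := by
      rw [← Finset.card_pos, Finset.card_erase_of_mem hi]
      omega
    have j1 := Finset.mem_erase.1 hj
    have h1 := pr j j1.2 i hi j1.1
    have h2 := hr.unit (insert i q.1) j
    linarith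
  have lq := low q.1 hq.1
  have st : ∀ {u : E}, u ∈ q.2 → u ∉ q.1 → u ∈ gs q := fun h h' => Finset.mem_sdiff.2 ⟨h, h'⟩
  have key : ∀ a b c : E, a ≠ b → a ≠ c → b ≠ c → a ∈ q.2 → b ∈ q.2 → c ∈ q.2 → a ∉ p.1 → b ∉ p.1 → c ∉ p.1 →
      (∀ A : Finset E, p.1 ⊆ A → S.r (insert a (insert b (insert c A))) ≤ S.r A + 2) → c ∈ q.1 → False := by
    intro a b c hab hac hbc ha2 hb2 hc2 hap hbp hcp hlow hc1
    have hsc : p.1 ⊆ q.1.erase c := by
      intro w hw
      refine Finset.mem_erase.2 ⟨?_, hq.1 hw⟩
      rintro rfl
      exact hcp hw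
    have hsa : p.1 ⊆ (q.1.erase c).erase a := by
      intro w hw
      refine Finset.mem_erase.2 ⟨?_, hsc hw⟩
      rintro rfl
      exact hap hw
    have hsb : p.1 ⊆ (q.1.erase c).erase b := by
      intro w hw
      refine Finset.mem_erase.2 ⟨?_, hsc hw⟩
      rintro rfl
      exact hbp hw
    -- `q.1` without `c`
    have hA := hlow (q.1.erase c) hsc
    rw [Finset.insert_erase hc1] at hA
    have hrc : S.r (q.1.erase c) + 1 = S.r q.1 := by
      have u1 := hr.unit (q.1.erase c) c
      rw [Finset.insert_erase hc1] at u1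
      have u2 := hN.1
      have up : S.r (q.1.erase c) ≤ S.r p.1 + ((q.1.erase c) \ p.1).card := ro_up hr hsc
      have e : (q.1.erase c) \ p.1 = (q.1 \ p.1).erase c := by
        ext w
        simp only [Finset.mem_sdiff, Finset.mem_erase]
        tauto
      rw [e, Finset.card_erase_of_mem (Finset.mem_sdiff.2 ⟨hc1, hcp⟩)] at up
      have pos : 0 < (q.1 \ p.1).card := Finset.card_pos.2 ⟨c, Finset.mem_sdiff.2 ⟨hc1, hcp⟩⟩
      omega
    -- so `a`, `b` have rank at most one over `q.1`
    by_cases ha1 : a ∈ q.1
    · by_cases hb1 : b ∈ q.1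
      · -- all three are contracted
        have hB := hlow p.1 (Finset.Subset.refl _)
        have hsub : insert a (insert b (insert c p.1)) ⊆ q.1 :=
          Finset.insert_subset ha1 (Finset.insert_subset hb1 (Finset.insert_subset hc1 hq.1))
        have up : S.r q.1 ≤ S.r (insert a (insert b (insert c p.1))) + (q.1 \ insert a (insert b (insert c p.1))).card := ro_up hr hsub
        have e : q.1 \ insert a (insert b (insert c p.1)) = (((q.1 \ p.1).erase c).erase b).erase a := by
          ext w
          simp only [Finset.mem_sdiff, Finset.mem_erase, Finset.mem_insert, not_or]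
          tauto
        have m1 : c ∈ q.1 \ p.1 := Finset.mem_sdiff.2 ⟨hc1, hcp⟩
        have m2 : b ∈ (q.1 \ p.1).erase c := Finset.mem_erase.2 ⟨hbc, Finset.mem_sdiff.2 ⟨hb1, hbp⟩⟩
        have m3 : a ∈ ((q.1 \ p.1).erase c).erase b := Finset.mem_erase.2 ⟨hab, Finset.mem_erase.2 ⟨hac, Finset.mem_sdiff.2 ⟨ha1, hap⟩⟩⟩
        have c1 := Finset.card_erase_add_one m1
        have c2 := Finset.card_erase_add_one m2
        have c3 := Finset.card_erase_add_one m3
        rw [e] at up
        have u2 := hN.1
        omega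
      · -- `b` is a loop
        have h1 := one b (st hb2 hb1)
        -- rank of `q.1` without `a` and `c`
        have hac1 : a ∈ q.1.erase c := Finset.mem_erase.2 ⟨hac, ha1⟩
        have hB := hlow ((q.1.erase c).erase a) hsa
        have e0 : insert a (insert b (insert c ((q.1.erase c).erase a))) = insert b q.1 := by
          ext w
          simp only [Finset.mem_insert, Finset.mem_erase]
          constructor
          · rintro (h | h | h | h)
            · exact Or.inr (h ▸ ha1)
            · exact Or.inl h
            · exact Or.inr (h ▸ hc1)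
            · exact Or.inr h.2.2
          · rintro (h | h)
            · exact Or.inr (Or.inl h)
            · by_cases hwa : w = a
              · exact Or.inl hwa
              · by_cases hwc : w = c
                · exact Or.inr (Or.inr (Or.inl hwc))
                · exact Or.inr (Or.inr (Or.inr ⟨hwa, hwc, h⟩))
        rw [e0] at hB
        have up : S.r ((q.1.erase c).erase a) ≤ S.r p.1 + (((q.1.erase c).erase a) \ p.1).card := ro_up hr hsa
        have e : ((q.1.erase c).erase a) \ p.1 = ((q.1 \ p.1).erase c).erase a := by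
          ext w
          simp only [Finset.mem_sdiff, Finset.mem_erase]
          tauto
        have m1 : c ∈ q.1 \ p.1 := Finset.mem_sdiff.2 ⟨hc1, hcp⟩
        have m3 : a ∈ (q.1 \ p.1).erase c := Finset.mem_erase.2 ⟨hac, Finset.mem_sdiff.2 ⟨ha1, hap⟩⟩
        have c1 := Finset.card_erase_add_one m1
        have c3 := Finset.card_erase_add_one m3
        rw [e] at up
        have u2 := hN.1
        omega
    · by_cases hb1 : b ∈ q.1
      · have h1 := one a (st ha2 ha1)
        have hbc1 : b ∈ q.1.erase c := Finset.mem_erase.2 ⟨hbc, hb1⟩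
        have hB := hlow ((q.1.erase c).erase b) hsb
        have e0 : insert a (insert b (insert c ((q.1.erase c).erase b))) = insert a q.1 := by
          ext w
          simp only [Finset.mem_insert, Finset.mem_erase]
          constructor
          · rintro (h | h | h | h)
            · exact Or.inl h
            · exact Or.inr (h ▸ hb1)
            · exact Or.inr (h ▸ hc1)
            · exact Or.inr h.2.2
          · rintro (h | h)
            · exact Or.inl h
            · by_cases hwa : w = b
              · exact Or.inr (Or.inl hwa)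
              · by_cases hwc : w = c
                · exact Or.inr (Or.inr (Or.inl hwc))
                · exact Or.inr (Or.inr (Or.inr ⟨hwa, hwc, h⟩))
        rw [e0] at hB
        have up : S.r ((q.1.erase c).erase b) ≤ S.r p.1 + (((q.1.erase c).erase b) \ p.1).card := ro_up hr hsb
        have e : ((q.1.erase c).erase b) \ p.1 = ((q.1 \ p.1).erase c).erase b := by
          ext w
          simp only [Finset.mem_sdiff, Finset.mem_erase]
          tauto
        have m1 : c ∈ q.1 \ p.1 := Finset.mem_sdiff.2 ⟨hc1, hcp⟩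
        have m3 : b ∈ (q.1 \ p.1).erase c := Finset.mem_erase.2 ⟨hbc, Finset.mem_sdiff.2 ⟨hb1, hbp⟩⟩
        have c1 := Finset.card_erase_add_one m1
        have c3 := Finset.card_erase_add_one m3
        rw [e] at up
        have u2 := hN.1
        omega
      · have h1 := pr a (st ha2 ha1) b (st hb2 hb1) hab
        omega
  by_cases hz1 : z ∈ q.1
  · exact key x y z hxy hxz hyz hx2 hy2 hz2 xp yp zp low hz1
  · by_cases hy1 : y ∈ q.1
    · exact key x z y hxz hxy hyz.symm hx2 hz2 hy2 xp zp yp (fun A hA => by
        have h := low A hA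
        rw [Finset.insert_comm y z] at h
        exact h) hy1
    · by_cases hx1 : x ∈ q.1
      · exact key y z x hyz hxy.symm hxz.symm hy2 hz2 hx2 yp zp xp (fun A hA => by
          have h := low A hA
          rw [Finset.insert_comm x y, Finset.insert_comm x z] at h
          exact h) hx1
      · have h1 := htri x (st hx2 hx1) y (st hy2 hy1) z (st hz2 hz1) hxy hxz hyz
        have e1 : q.1 ∪ {x, y, z} = insert x (insert y (insert z q.1)) := by
          ext w
          simp only [Finset.mem_union, Finset.mem_insert, Finset.mem_singleton]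
          tauto
        rw [e1] at h1
        omega

/-- RICH-1 -/
theorem rich_tri (S : TP F4 E) {p : Itv E} (h3 : Th3 S.r p) (hr3 : S.r p.1 + 3 ≤ S.r p.2) (hR : HasRich S.r p)
    {x y z : E} (hx : x ∈ gs p) (hy : y ∈ gs p) (hz : z ∈ gs p) (hxy : x ≠ y) (hxz : x ≠ z) (hyz : y ≠ z)
    (hL : S.r (insert x (insert y (insert z p.1))) ≤ S.r p.1 + 2) :
    HasRich S.r (rm true x p) ∨ HasRich S.r (rm true y p) ∨ HasRich S.r (rm true z p) := by
  obtain ⟨q0, hq0, hR0, h0⟩ : ∃ q, Sub q p ∧ Rich S.r q ∧ S.r q.2 = S.r q.1 + 3 := by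
    obtain ⟨q, hq, hRq⟩ := hR
    rcases hRq.2.2 with h | h
    · exact rich_three S h3 hr3 ⟨q, hq, hRq, h.1⟩
    · exact ⟨q, hq, hRq, h.1⟩
  obtain ⟨q, hq, hqq, hs, hN, -⟩ := nrm_exists S hq0 hR0.1
  have hRq := same_rich hqq hs hR0
  have e : S.r (q.1 ∪ gs q) - S.r q.1 = S.r (q0.1 ∪ gs q0) - S.r q0.1 := by
    have h1 := hs.2 (gs q0) (Finset.Subset.refl _)
    have h4 : Pool.Agent.QU.gs q = gs q0 := hs.1
    have h5 : gs q = gs q0 := h4
    rw [h5]
    exact h1
  rw [show q.1 ∪ gs q = q.2 from Finset.union_sdiff_of_subset hqq, show q0.1 ∪ gs q0 = q0.2 from Finset.union_sdiff_of_subset hR0.1] at e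
  have go : ∀ w : E, w ∉ q.2 → HasRich S.r (rm true w p) := fun w hw =>
    ⟨q, ⟨hq.1, fun v hv => Finset.mem_erase.2 ⟨fun h => hw (h ▸ hv), hq.2 hv⟩⟩, hRq⟩
  rcases rich_out S hq hRq (by omega) hN hx hy hz hxy hxz hyz hL with h | h | h
  · exact Or.inl (go x h)
  · exact Or.inr (Or.inl (go y h))
  · exact Or.inr (Or.inr (go z h))

end Pool.Agent.QU
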